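import Pool.Agent.H71.KA.Lft
import Pool.Agent.H71.KA.Fn2

/-!
# [H51 K2 B1] `BASE` with a field `K₀` which depends on the number of the split places, and both kinds of steps

* `BASE1`: as `BASE`, `K₀` depends on `s`. `LF1 π s`: homomorphisms lift along `π`, with the section `s` on the inertia groups and trivial at
  `k` split places, over fields `K ≥ K₀(k)` (`lf1_step`, by units).
* `base1_lfs`: the step `LFS` (STP). `base1_lf1`: the step `LF1`. `low_of_base1`: the lower bound.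
-/

set_option autoImplicit false

open scoped NumberField
open IsDedekindDomain H38.ML
open scoped Classical IsMulCommutative

noncomputable section

namespace H51.K2

open H63.MA H38.BB H38.BG H77.PC3 H88.LH H35.SN H71.KA H77.GN H77.AB

/-- `BASE` with a field `K₀` which depends on `s` -/
def BASE1 {G : Type} [Group G] (C : Set G) (N : ℕ) : Prop :=
  ∀ s : ℕ, ∃ K₀ : IntermediateField ℚ QBar, NumberField K₀ ∧
    ∀ K : IntermediateField ℚ QBar, ∀ _ : NumberField K, K₀ ≤ K →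
      ∀ S₁ : Finset (Pl K), ∃ (Q : DP K QBar) (S₀ S' : Finset (Pl K)) (c Y₀ : ℝ),
        0 < c ∧ S₁ ⊆ S₀ ∧ S' ⊆ S₀ ∧ Disjoint S' S₁ ∧ S'.card = s ∧
          ∀ Y : ℝ, Y₀ ≤ Y → Bh C N Q S₀ S' c Y

/-- homomorphisms lift along `π`, with the section `s` on the inertia groups, trivial at `k` split places -/
def LF1 {G Gb : Type} [Group G] [Group Gb] (π : G →* Gb) (s : Gb →* G) : Prop :=
  ∀ k : ℕ, ∃ K₀ : IntermediateField ℚ QBar, NumberField K₀ ∧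
    ∀ K : IntermediateField ℚ QBar, ∀ _ : NumberField K, K₀ ≤ K →
      ∀ φ : Gal(QBar/K) →* Gb, Function.Surjective φ → FT φ → ∀ (Q : DP K QBar) (S' : Finset (Pl K)),
        S'.card = k → (∀ v ∈ S', ¬ Above (Nat.card π.ker) v) →
        (∀ v ∈ S', ∀ σ ∈ dec (K := K) (Q.P v), φ σ = 1) →
        ∃ φ' : Gal(QBar/K) →* G, FT φ' ∧ Function.Surjective φ' ∧ (∀ σ, π (φ' σ) = φ σ) ∧
          (∀ v ∈ S', ∀ σ ∈ dec (K := K) (Q.P v), φ' σ = 1) ∧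
          ∀ v, ¬ Above (Nat.card π.ker) v → ∃ m ∈ π.ker, ∀ τ ∈ (Q.P v).inertia Gal(QBar/K),
            φ' τ = m * s (φ τ) * m⁻¹

theorem base_base1 {G : Type} [Group G] {C : Set G} {N : ℕ} (h : BASE C N) : BASE1 C N := by
  intro s
  obtain ⟨K₀, hK₀, h⟩ := h
  exact ⟨K₀, hK₀, fun K hK hle S₁ => h K hK hle s S₁⟩

theorem bh_lift {K : IntermediateField ℚ QBar} [NumberField K] {G Gb : Type} [Group G]
    [Group Gb] {π : G →* Gb} {s : Gb →* G} {C : Set G} {Cb : Set Gb} (hC : ∀ y ∈ Cb, s y ∈ C)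
    (hcc : ∀ x ∈ C, ∀ g : G, g * x * g⁻¹ ∈ C) {N : ℕ} {Q : DP K QBar} {S₀ Sb S' : Finset (Pl K)} {c Y : ℝ}
    (hl : ∀ φb : Gal(QBar/K) →* Gb, Function.Surjective φb → FT φb →
      (∀ v ∈ Sb, ∀ σ ∈ dec (K := K) (Q.P v), φb σ = 1) →
      ∃ φ : Gal(QBar/K) →* G, FT φ ∧ Function.Surjective φ ∧ (∀ σ, π (φ σ) = φb σ) ∧
        (∀ v ∈ S', ∀ σ ∈ dec (K := K) (Q.P v), φ σ = 1) ∧
        ∀ v, v ∉ S₀ → ∃ m ∈ π.ker, ∀ τ ∈ (Q.P v).inertia Gal(QBar/K), φ τ = m * s (φb τ) * m⁻¹)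
    (h : Bh Cb N Q S₀ Sb c Y) : Bh C N Q S₀ S' c Y := by
  obtain ⟨Rs, hRs, h8⟩ := h
  have hex : ∀ φb : Gal(QBar/K) →* Gb, ∃ φ : Gal(QBar/K) →* G, φb ∈ Rs → FT φ ∧
      Function.Surjective φ ∧ (∀ σ, π (φ σ) = φb σ) ∧
      (∀ v ∈ S', ∀ σ ∈ dec (K := K) (Q.P v), φ σ = 1) ∧
      ∀ v, v ∉ S₀ → ∃ m ∈ π.ker, ∀ τ ∈ (Q.P v).inertia Gal(QBar/K),
        φ τ = m * s (φb τ) * m⁻¹ := by
    intro φb
    by_cases hφb : φb ∈ Rs
    · obtain ⟨g1, g2, g3, g4⟩ := h8 φb hφb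
      obtain ⟨φ, q2⟩ := hl φb g2 g1 g3
      exact ⟨φ, fun _ => q2⟩
    · exact ⟨1, fun h => absurd h hφb⟩
  choose lf hlf using hex
  have hinj : Set.InjOn lf (Rs : Set (Gal(QBar/K) →* Gb)) := by
    intro θ₁ h9 θ₂ h10 he
    obtain ⟨-, -, q1, -⟩ := hlf θ₁ h9
    obtain ⟨-, -, q2, -⟩ := hlf θ₂ h10
    refine MonoidHom.ext fun σ => ?_
    rw [← q1 σ, ← q2 σ, he]
  refine ⟨Rs.image lf, ?_, ?_⟩
  · rw [Finset.card_image_of_injOn hinj]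
    exact hRs
  intro φ hφ
  obtain ⟨φb, hφb, rfl⟩ := Finset.mem_image.1 hφ
  obtain ⟨q2, q3, q4, q5, hin⟩ := hlf φb hφb
  obtain ⟨g1, g2, g3, T, k, t1, t2, t3, t4⟩ := h8 φb hφb
  refine ⟨q2, q3, q5, T, k, t1, t2, fun v hv => ?_, fun v hv hv2 τ hτ => ?_⟩
  · obtain ⟨x, hx, hx2⟩ := t3 v hv
    obtain ⟨m, hm, h9⟩ := hin v (t1 v hv)
    refine ⟨m * s x * m⁻¹, ?_, fun τ hτ => ?_⟩
    · refine pk_map (f := (MulAut.conj m).toMonoidHom.comp s) ?_ hx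
      intro y hy
      exact hcc _ (hC _ hy) m
    · obtain ⟨j, hj⟩ := Subgroup.mem_zpowers_iff.1 (hx2 τ hτ)
      rw [h9 τ hτ, ← hj, map_zpow]
      exact ⟨j, conj_zpow⟩
  · obtain ⟨m, hm, h9⟩ := hin v hv
    rw [h9 τ hτ, t4 v hv hv2 τ hτ, map_one, mul_one, mul_inv_cancel]

theorem base1_lfs {l N : ℕ} (hl0 : 0 < l) {G Gb : Type} [Group G] [Finite G]
    [Group Gb] {π : G →* Gb} {s : Gb →* G} (S : LFS l π s) (hsur : Function.Surjective π)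
    (C : Set G) (Cb : Set Gb) (hC : ∀ y ∈ Cb, s y ∈ C)
    (hcc : ∀ x ∈ C, ∀ g : G, g * x * g⁻¹ ∈ C)
    (h : BASE1 Cb N) : BASE1 C N := by
  intro t
  have hfb : Finite Gb := Finite.of_surjective π hsur
  have : NeZero l := ⟨hl0.ne'⟩
  obtain ⟨K₁, hK₁, h⟩ := h (t + (l * (Nat.card Gb * (t + 1)) + 1))
  obtain ⟨K₂, hK₂, h2⟩ := H38.BG.akn (Multiplicative (ZMod l))
  have hK₁' : FiniteDimensional ℚ K₁ := hK₁.to_finiteDimensional
  have hK₂' : FiniteDimensional ℚ K₂ := hK₂.to_finiteDimensional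
  have hfd' : FiniteDimensional ℚ ↥(K₁ ⊔ K₂) := IntermediateField.finiteDimensional_sup K₁ K₂
  refine ⟨K₁ ⊔ K₂, NumberField.of_module_finite ℚ _, fun K hK hle S₁ => ?_⟩
  obtain ⟨-, ⟨z, hz⟩, -⟩ := h2 K (le_trans le_sup_right hle) hK
  have hcard : Nat.card (Multiplicative (ZMod l)) = l :=
    (Nat.card_congr Multiplicative.toAdd).trans (Nat.card_zmod _)
  rw [hcard] at hz
  obtain ⟨Sl, hSl⟩ : ∃ Sl : Finset (Pl K), ∀ w, w ∈ Sl ↔ Above l w :=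
    ⟨(above_fin hl0).toFinset, fun w => by rw [Set.Finite.mem_toFinset]; rfl⟩
  obtain ⟨Q, S₀, Sb, c, Y₀, hc, h3, h4, h5, h6, h7⟩ := h K hK (le_trans le_sup_left hle) (S₁ ∪ Sl)
  obtain ⟨S', hS', hS'c⟩ := Finset.exists_subset_card_eq (s := Sb) (n := t) (by omega)
  have hdis := Finset.disjoint_left.1 h5
  have hnl : ∀ v ∈ Sb, ¬ Above l v := fun v hv h8 =>
    hdis hv (Finset.mem_union_right _ ((hSl v).2 h8))
  have hsub : (Sb \ S') ∪ S' ⊆ Sb := by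
    intro v hv
    rcases Finset.mem_union.1 hv with hv | hv
    · exact (Finset.mem_sdiff.1 hv).1
    · exact hS' hv
  have hcd : l * (Nat.card Gb * (S'.card + 1)) < (Sb \ S').card := by
    rw [Finset.card_sdiff_of_subset hS', h6, hS'c]
    omega
  refine ⟨Q, S₀, S', c, Y₀, hc, Finset.union_subset_left h3, hS'.trans h4,
    Finset.disjoint_left.2 fun v hv hv2 => hdis (hS' hv) (Finset.mem_union_left _ hv2), hS'c,
    fun Y hY => bh_lift (π := π) hC hcc (fun φb hs hf hd => ?_) (h7 Y hY)⟩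
  obtain ⟨φ, q2, q3, q4, q5, q6⟩ := S K ⟨z, hz⟩ φb hs hf Q (Sb \ S') S'
    Finset.sdiff_disjoint (fun v hv => hd v (hsub hv)) (fun v hv => hnl v (hsub hv)) hcd
  refine ⟨φ, q2, q3, q4, q5, fun w hw => ?_⟩
  exact q6 w (fun h9 => hw (h4 (Finset.mem_sdiff.1 h9).1)) fun h9 =>
      hw (h3 (Finset.mem_union_right _ ((hSl w).2 h9)))

theorem base1_lf1 {N : ℕ} {G Gb : Type} [Group G] [Finite G]
    [Group Gb] {π : G →* Gb} {s : Gb →* G} (S : LF1 π s)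
    (C : Set G) (Cb : Set Gb) (hC : ∀ y ∈ Cb, s y ∈ C)
    (hcc : ∀ x ∈ C, ∀ g : G, g * x * g⁻¹ ∈ C)
    (h : BASE1 Cb N) : BASE1 C N := by
  intro t
  have hl0 : 0 < Nat.card π.ker := Nat.card_pos
  obtain ⟨K₁, hK₁, h⟩ := h t
  obtain ⟨K₂, hK₂, h2⟩ := S t
  have hK₁' : FiniteDimensional ℚ K₁ := hK₁.to_finiteDimensional
  have hK₂' : FiniteDimensional ℚ K₂ := hK₂.to_finiteDimensional
  have hfd' : FiniteDimensional ℚ ↥(K₁ ⊔ K₂) := IntermediateField.finiteDimensional_sup K₁ K₂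
  refine ⟨K₁ ⊔ K₂, NumberField.of_module_finite ℚ _, fun K hK hle S₁ => ?_⟩
  obtain ⟨Sl, hSl⟩ : ∃ Sl : Finset (Pl K), ∀ w, w ∈ Sl ↔ Above (Nat.card π.ker) w :=
    ⟨(above_fin hl0).toFinset, fun w => by rw [Set.Finite.mem_toFinset]; rfl⟩
  obtain ⟨Q, S₀, S', c, Y₀, hc, h3, h4, h5, h6, h7⟩ := h K hK (le_trans le_sup_left hle) (S₁ ∪ Sl)
  have hdis := Finset.disjoint_left.1 h5
  refine ⟨Q, S₀, S', c, Y₀, hc, Finset.union_subset_left h3, h4,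
    Finset.disjoint_left.2 fun v hv hv2 => hdis hv (Finset.mem_union_left _ hv2), h6,
    fun Y hY => bh_lift (π := π) hC hcc (fun φb hs hf hd => ?_) (h7 Y hY)⟩
  obtain ⟨φ, q2, q3, q4, q5, q6⟩ := h2 K hK (le_trans le_sup_right hle) φb hs hf Q S' h6
    (fun v hv h8 => hdis hv (Finset.mem_union_right _ ((hSl v).2 h8))) hd
  exact ⟨φ, q2, q3, q4, q5, fun w hw => q6 w fun h9 =>
    hw (h3 (Finset.mem_union_right _ ((hSl w).2 h9)))⟩

/-- from `BASE1` for the elements of least index to the lower bound -/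
theorem low_of_base1 (n : ℕ) (hn : 2 ≤ n) (G : Subgroup (Equiv.Perm (Fin n)))
    (hG : MulAction.IsPretransitive G (Fin n))
    (hb : ∀ (r : ℕ), 1 ≤ r → ∀ g : Fin r → G, (∀ i j, IsConj (g i) (g j) → i = j) →
      (∀ x, x ∈ H88.LB.Lst G ↔ ∃ i, IsConj x (g i)) → BASE1 (H88.LB.Lst G) r) : H88.LB.Low G := by
  obtain ⟨ha, ⟨g₀, hg₀, hg₀'⟩, hmin, hcj, hJ⟩ := pidx_pos hn G hG
  obtain ⟨r, g, hgΛ, uni, hI⟩ := ncl G {h : G | h ≠ 1 ∧ ind (h : Equiv.Perm (Fin n)) = indG G}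
    (fun h hh => hh.1) (by
      rintro h ⟨h1, h2⟩ k hk
      refine ⟨?_, ?_⟩
      · intro hk1
        rw [hk1] at hk
        exact h1 (isConj_one_left.1 hk)
      · obtain ⟨x, rfl⟩ := isConj_iff.1 hk
        exact hcj h x h1 h2)
  have hr : 1 ≤ r := by
    obtain ⟨i, -⟩ := (hI g₀).1 ⟨hg₀, hg₀'⟩
    exact Nat.one_le_iff_ne_zero.2 fun h => by
      subst h
      exact i.elim0
  have hbase : BASE1 {h : G | h ≠ 1 ∧ ind (h : Equiv.Perm (Fin n)) = indG G} r := hb r hr g uni hI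
  obtain ⟨K₁, hK₁, h⟩ := hbase 0
  obtain ⟨K₂, hK₂, h2⟩ := akn G
  have hK₁' : FiniteDimensional ℚ K₁ := hK₁.to_finiteDimensional
  have hK₂' : FiniteDimensional ℚ K₂ := hK₂.to_finiteDimensional
  have hfd' : FiniteDimensional ℚ ↥(K₁ ⊔ K₂) := IntermediateField.finiteDimensional_sup K₁ K₂
  refine ⟨K₁ ⊔ K₂, NumberField.of_module_finite ℚ _, fun K hK hle => ?_⟩
  obtain ⟨-, ⟨z, hz⟩, -⟩ := h2 K (le_trans le_sup_right hle) hK
  obtain ⟨Q, S₀, S', c', Y₀, hc', h3, h4, h5, h6, h7⟩ := h K hK (le_trans le_sup_left hle) ∅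
  have hβ : Spec.betaAll K QBar G = r := lbet G K z hz g uni fun h => hI h
  unfold H88.LB.LowK
  rw [hβ]
  exact cfm hn G hG ha K Q S₀ S' _ (fun h hh => hh.2) r c' Y₀ hc' h7

end H51.K2
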