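import Pool.Agent.H51.K2.Def
import Pool.Agent.H51.K1.Unq
import Pool.Agent.H51.K1.Srj

/-!
# [H51 K2 Unq] The types of `TyB` are determined by the homomorphism; the condition `Tm`
-/

set_option autoImplicit false

open scoped NumberField Classical
open IsDedekindDomain H38.ML

noncomputable section

namespace H51.K2

open H63.MA H38.BB H38.BG H77.PC3 H51.SN H57.SL H36.QA H88.LH H51.K1

variable {K : IntermediateField ℚ QBar} [NumberField K] {m : ℕ} {ζ : K}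

private theorem not_m {S₀ : Finset (Pl K)} (hS : ∀ v : Pl K, ((m : ℕ) : 𝓞 K) ∈ v.asIdeal → v ∈ S₀) {v : Pl K}
    (hv : v ∉ S₀) : ((m : ℕ) : 𝓞 K) ∉ v.asIdeal := fun h => hv (hS v h)

private theorem tyB_sub {A : Type} [Group A] [Finite A] (Q : DP K QBar) (hζ : IsPrimitiveRoot ζ m)
    (hA : Nat.card A ∣ m) {S₀ S' : Finset (Pl K)} (hS : ∀ v : Pl K, ((m : ℕ) : 𝓞 K) ∈ v.asIdeal → v ∈ S₀)
    {I : Type} {o : I → A} (ho : ∀ i, (orderOf (o i)).Prime) (hc : ∀ i j, IsConj (o i) (o j) → i = j)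
    {D D' : I → Finset (Pl K)} {φ : Gal(QBar/K) →* A}
    (h : TyB Q m ζ S₀ S' o D φ) (h' : TyB Q m ζ S₀ S' o D' φ) (i : I) (v : Pl K) (hv : v ∈ D i) : v ∈ D' i := by
  have hv0 : v ∉ S₀ := h.out i v hv
  have hm := not_m hS hv0
  obtain ⟨g, hg⟩ := h.ram i v hv
  have hex : ∃ j, v ∈ D' j := by
    by_contra hcc
    push Not at hcc
    obtain ⟨τ, hτ, h1⟩ := tx_ex Q hζ hA v hm (o i) (ho i)
    have h2 := h'.unr v hv0 hcc τ hτ
    rw [hg τ hτ, h1] at h2
    have h3 : o i = 1 := by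
      have h4 : o i = g⁻¹ * (g * o i * g⁻¹) * g := by group
      rw [h4, h2]
      group
    have h5 := ho i
    rw [h3, orderOf_one] at h5
    exact Nat.not_prime_one h5
  obtain ⟨j, hj⟩ := hex
  obtain ⟨g', hg'⟩ := h'.ram j v hj
  have hord : ∀ (a y : A), orderOf (a * y * a⁻¹) = orderOf y := fun a y => by
    rw [← MulAut.conj_apply, MulEquiv.orderOf_eq]
  have heq : g * o i * g⁻¹ = g' * o j * g'⁻¹ := by
    refine tx_inj Q hζ hA v hm _ _ ?_ ?_ fun τ hτ => ?_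
    · rw [hord]
      exact ho i
    · rw [hord]
      exact ho j
    · rw [tx_cj, tx_cj, ← hg τ hτ, ← hg' τ hτ]
  have hcj : IsConj (o i) (o j) := by
    rw [isConj_iff]
    refine ⟨g'⁻¹ * g, ?_⟩
    calc g'⁻¹ * g * o i * (g'⁻¹ * g)⁻¹ = g'⁻¹ * (g * o i * g⁻¹) * g' := by group
      _ = g'⁻¹ * (g' * o j * g'⁻¹) * g' := by rw [heq]
      _ = o j := by group
  rw [hc i j hcj]
  exact hj

theorem tyB_unq {A : Type} [Group A] [Finite A] (Q : DP K QBar) (hζ : IsPrimitiveRoot ζ m)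
    (hA : Nat.card A ∣ m) {S₀ S' : Finset (Pl K)} (hS : ∀ v : Pl K, ((m : ℕ) : 𝓞 K) ∈ v.asIdeal → v ∈ S₀)
    {I : Type} {o : I → A} (ho : ∀ i, (orderOf (o i)).Prime) (hc : ∀ i j, IsConj (o i) (o j) → i = j)
    {D D' : I → Finset (Pl K)} {φ : Gal(QBar/K) →* A}
    (h : TyB Q m ζ S₀ S' o D φ) (h' : TyB Q m ζ S₀ S' o D' φ) : D = D' := by
  funext i
  ext v
  exact ⟨tyB_sub Q hζ hA hS ho hc h h' i v, tyB_sub Q hζ hA hS ho hc h' h i v⟩

private theorem nm_one (v : Pl K) : (1 : ℝ) ≤ nm v := by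
  have h : nm v ≠ 0 := by
    unfold nm
    rw [Ne, Ideal.absNorm_eq_zero_iff]
    exact v.ne_bot
  exact_mod_cast Nat.one_le_iff_ne_zero.2 h

private theorem pr_un (s t : Finset (Pl K)) :
    ∏ v ∈ s ∪ t, (nm v : ℝ) ≤ (∏ v ∈ s, (nm v : ℝ)) * ∏ v ∈ t, (nm v : ℝ) := by
  rw [← Finset.prod_union_inter]
  refine le_mul_of_one_le_right (Finset.prod_nonneg fun v _ => Nat.cast_nonneg _) ?_
  exact Finset.one_le_prod fun v _ => nm_one v

private theorem pr_bi {J : Type} (s : Finset J) (f : J → Finset (Pl K)) :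
    ∏ v ∈ s.biUnion f, (nm v : ℝ) ≤ ∏ j ∈ s, ∏ v ∈ f j, (nm v : ℝ) := by
  induction s using Finset.induction_on with
  | empty => simp
  | insert a s ha ih =>
    rw [Finset.biUnion_insert, Finset.prod_insert ha]
    refine le_trans (pr_un _ _) ?_
    exact mul_le_mul_of_nonneg_left ih (Finset.prod_nonneg fun v _ => Nat.cast_nonneg _)

variable {G : Type} [Group G] [Finite G]

omit [Finite G] in
private theorem pk_one {C : Set G} {y : G} (hy : y ∈ C) : Pk C 1 y := by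
  refine ⟨[y], by simp, ?_, ?_, by simp⟩
  · intro z hz
    rw [List.mem_singleton.1 hz]
    exact hy
  · intro z hz w hw
    rw [List.mem_singleton.1 hz, List.mem_singleton.1 hw]

omit [Finite G] in
private theorem zp_cj {x y : G} (g : G) (h : y ∈ Subgroup.zpowers x) :
    g * y * g⁻¹ ∈ Subgroup.zpowers (g * x * g⁻¹) := by
  obtain ⟨n, rfl⟩ := Subgroup.mem_zpowers_iff.1 h
  exact Subgroup.mem_zpowers_iff.2 ⟨n, conj_zpow⟩

omit [Finite G] in
theorem tyB_tm (Q : DP K QBar) {S₀ S' : Finset (Pl K)} {T A : Subgroup G} (hT : T.Normal) {C : Set G}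
    (hC : ∀ y ∈ C, ∀ g : G, g * y * g⁻¹ ∈ C) {J : Type} [Fintype J] {x : J → G} (hx : ∀ j, x j ∈ C)
    {I : Type} [Fintype I] {o : I → A} (ho : ∀ i, (o i : G) ∈ C) {D : I → Finset (Pl K)}
    {φ : Gal(QBar/K) →* A} (hφ : TyB Q m ζ S₀ S' o D φ) {q : J → Finset (Vx S₀)} {θ : Gal(QBar/K) →* G}
    (h : TyT Q m ζ S₀ T x (A.subtype.comp φ) q θ) (Y : ℝ)
    (hY : nN (UI D) * ∏ j, ∏ v ∈ q j, (nm v.1 : ℝ) ≤ Y) : Tm C Q S₀ Y θ := by
  have hUD : ∀ v : Pl K, v ∈ UI D ↔ ∃ i, v ∈ D i := by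
    intro v
    unfold UI
    simp
  refine ⟨UI D ∪ Finset.univ.biUnion (fun j => (q j).image Subtype.val), fun _ => 1, ?_, ?_, ?_, ?_⟩
  · intro v hv
    rcases Finset.mem_union.1 hv with h1 | h1
    · obtain ⟨i, hi⟩ := (hUD v).1 h1
      exact hφ.out i v hi
    · obtain ⟨j, _, hj⟩ := Finset.mem_biUnion.1 h1
      obtain ⟨w, _, rfl⟩ := Finset.mem_image.1 hj
      exact w.2
  · refine le_trans ?_ hY
    simp only [pow_one]
    refine le_trans (pr_un _ _) ?_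
    refine mul_le_mul_of_nonneg_left ?_ (Finset.prod_nonneg fun v _ => Nat.cast_nonneg _)
    refine le_trans (pr_bi _ _) ?_
    refine Finset.prod_le_prod (fun j _ => Finset.prod_nonneg fun v _ => Nat.cast_nonneg _) fun j _ => ?_
    rw [Finset.prod_image (Subtype.val_injective.injOn)]
  · intro v hv
    have hvS : v ∉ S₀ := by
      rcases Finset.mem_union.1 hv with h1 | h1
      · obtain ⟨i, hi⟩ := (hUD v).1 h1
        exact hφ.out i v hi
      · obtain ⟨j, _, hj⟩ := Finset.mem_biUnion.1 h1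
        obtain ⟨w, _, rfl⟩ := Finset.mem_image.1 hj
        exact w.2
    by_cases hj : ∃ j, (⟨v, hvS⟩ : Vx S₀) ∈ q j
    · obtain ⟨j, hj⟩ := hj
      obtain ⟨g, hg⟩ := h.ram j _ hj
      refine ⟨g * x j * g⁻¹, pk_one (hC _ (hx j) g), fun τ hτ => ?_⟩
      rw [hg τ hτ]
      exact zp_cj g (tx_zp v (x j) τ)
    · push Not at hj
      have h1 : v ∈ UI D := by
        rcases Finset.mem_union.1 hv with h1 | h1
        · exact h1
        · exfalso
          obtain ⟨j, _, hj'⟩ := Finset.mem_biUnion.1 h1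
          obtain ⟨w, hw, rfl⟩ := Finset.mem_image.1 hj'
          exact hj j hw
      obtain ⟨i, hi⟩ := (hUD v).1 h1
      obtain ⟨a, ha⟩ := hφ.ram i v hi
      obtain ⟨t, ht, hr⟩ := h.unr ⟨v, hvS⟩ hj
      refine ⟨t * ((a : G) * (o i : G) * (a : G)⁻¹) * t⁻¹, pk_one (hC _ (hC _ (ho i) _) t), fun τ hτ => ?_⟩
      rw [hr τ hτ, MonoidHom.comp_apply, ha τ hτ]
      refine zp_cj t ?_
      rw [Subgroup.subtype_apply, Subgroup.coe_mul, Subgroup.coe_mul, Subgroup.coe_inv]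
      refine zp_cj (a : G) ?_
      obtain ⟨n, hn⟩ := Subgroup.mem_zpowers_iff.1 (tx_zp (m := m) (ζ := ζ) v (o i) τ)
      refine Subgroup.mem_zpowers_iff.2 ⟨n, ?_⟩
      rw [← hn]
      rfl
  · intro v hvS hv τ hτ
    have h1 : ∀ j, (⟨v, hvS⟩ : Vx S₀) ∉ q j := by
      intro j hj
      refine hv (Finset.mem_union_right _ (Finset.mem_biUnion.2 ⟨j, Finset.mem_univ j, ?_⟩))
      exact Finset.mem_image.2 ⟨_, hj, rfl⟩
    obtain ⟨t, ht, hr⟩ := h.unr ⟨v, hvS⟩ h1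
    rw [hr τ hτ, MonoidHom.comp_apply, hφ.unr v hvS (fun i hi => hv (Finset.mem_union_left _ ((hUD v).2 ⟨i, hi⟩))) τ hτ]
    simp

end H51.K2
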