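import Pool.Agent.H51.K1.Def

/-!
# THEOREM K2 (MP_b39724_nt): definitions and the interface of the families (architect helper51)

`A` is an arbitrary finite group, `o i` (`i ∈ I`) representatives of classes of elements of prime order of `A`; all conjugates of all `o i`
commute. (`A = G / N` with `N` an abelian normal Hall subgroup of squarefree exponent, `T' ≤ N`, `T` generated by the elements of least index.)

* `TyB`: typed homomorphisms to `A`: `D i` is the set of the primes of type `o i`.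
* `FAM2`: the families of homomorphisms to `A`, all equal to `φ₀` modulo the subgroup generated by the conjugates of the `o i`.
-/

set_option autoImplicit false

open scoped NumberField Classical
open IsDedekindDomain H38.ML Pool.Agent.H36.RS

noncomputable section

namespace H51.K2

open H63.MA H38.BB H38.BG H77.PC3 H51.SN H57.SL H36.QA H88.LH H51.K1

variable {K : IntermediateField ℚ QBar} [NumberField K]

/-- typed homomorphisms to `A` -/
structure TyB {A : Type} [Group A] {I : Type} (Q : DP K QBar) (m : ℕ) (ζ : K) (S₀ S' : Finset (Pl K)) (o : I → A)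
    (D : I → Finset (Pl K)) (φ : Gal(QBar/K) →* A) : Prop where
  ft : FT φ
  srj : Function.Surjective φ
  out : ∀ i, ∀ v ∈ D i, v ∉ S₀
  dis : ∀ i j, i ≠ j → Disjoint (D i) (D j)
  ram : ∀ i, ∀ v ∈ D i, ∃ a : A, ∀ τ ∈ (Q.P v).inertia Gal(QBar/K), φ τ = a * tx m ζ v (o i) τ * a⁻¹
  unr : ∀ v, v ∉ S₀ → (∀ i, v ∉ D i) → ∀ τ ∈ (Q.P v).inertia Gal(QBar/K), φ τ = 1
  dec : ∀ v ∈ S', ∀ σ ∈ dec (K := K) (Q.P v), φ σ = 1

/-- the union of the `D i` -/
def UI {I : Type} [Fintype I] (D : I → Finset (Pl K)) : Finset (Pl K) := Finset.univ.biUnion D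

/-- the chapter FA2: for every box `X` a family of typed homomorphisms to `A`, with the hypotheses of H36/RS -/
def FAM2 : Prop :=
  ∀ (K : IntermediateField ℚ QBar) [NumberField K] (_ : NumberField.IsTotallyComplex K) (m : ℕ) (ζ : K)
    (_ : IsPrimitiveRoot ζ m) (A : Type) [Group A] [Finite A] (_ : Nat.card A ∣ m) (_ : 0 < m)
    (I : Type) [Fintype I] (o : I → A) (_ : ∀ i, (orderOf (o i)).Prime) (_ : ∀ i j, IsConj (o i) (o j) → i = j)
    (_ : ∀ i j (a b : A), (a * o i * a⁻¹) * (b * o j * b⁻¹) = (b * o j * b⁻¹) * (a * o i * a⁻¹))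
    (J : Type) [Fintype J] (H : J → Subgroup A) (Q : DP K QBar)
    (φ₀ : Gal(QBar/K) →* A) (_ : FT φ₀) (_ : Function.Surjective φ₀) (S₁ S' : Finset (Pl K))
    (_ : ∀ v ∈ S', ((m : ℕ) : 𝓞 K) ∉ v.asIdeal) (_ : ∀ v ∈ S', ∀ σ ∈ dec (K := K) (Q.P v), φ₀ σ = 1),
    ∃ (S₀ : Finset (Pl K)) (C θ η c Z0 : ℝ), S₁ ⊆ S₀ ∧ 2 ≤ C ∧ 0 < θ ∧ 0 < η ∧ 0 < c ∧
      ∀ Z : ℝ, Z0 ≤ Z → ∀ X : I → ℝ, (∀ i, Z ≤ X i) → (∀ i, X i ≤ Z ^ 2) →
        ∃ (ι : Type) (_ : Fintype ι) (φ : ι → Gal(QBar/K) →* A) (D : ι → I → Finset (Pl K)) (g : J → Vx S₀ → ℝ),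
          Function.Injective φ ∧ c * ∏ i, X i ≤ (Fintype.card ι : ℝ) ∧
          (∀ k, TyB Q m ζ S₀ S' o (D k) (φ k)) ∧
          (∀ k, ∀ i, X i < nN (D k i) ∧ nN (D k i) ≤ C * X i) ∧
          Hyp C θ η 1 Z (dat Q S₀ H φ (fun k => UI (D k)) g Z)

end H51.K2
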