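import Pool.Agent.H51.K1.Fib
import Pool.Agent.H51.K2.Def

/-!
# [H51 K2 Fib2] The fibre chapter with coprimality of `T` and the group which acts on `T` only

`FIB2`: as `FIB`, with `Coprime (card T) (card of the image of G in MulAut T)` instead of `Coprime (card T) (card A)`.
`fib2` from `H12.KF.fibre_box` for the group `c.range`, `c : A →* MulAut T`.
-/

set_option autoImplicit false

open scoped NumberField Classical
open IsDedekindDomain H38.ML Pool.Agent.H36.RS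

noncomputable section

namespace H51.K2

open H63.MA H38.BB H38.BG H77.PC3 H51.SN H57.SL H36.QA H88.LH H51.K1

/-- the fibre chapter, coprimality only with the group which acts -/
def FIB2 : Prop :=
  ∀ (K : IntermediateField ℚ QBar) [NumberField K] (_ : NumberField.IsTotallyComplex K) (m : ℕ) (ζ : K)
    (_ : IsPrimitiveRoot ζ m) (G : Type) [Group G] [Finite G] (_ : Nat.card G ∣ m) (T A : Subgroup G)
    (hT : T.Normal) (_ : ∀ s ∈ T, ∀ t ∈ T, s * t = t * s) (_ : Subgroup.IsComplement' T A)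
    (_ : Nat.Coprime (Nat.card T) (Nat.card (@MulAut.conjNormal G _ T hT).range)) (J : Type) [Fintype J] (x : J → G)
    (_ : ∀ j, x j ∈ T) (_ : ∀ j, (orderOf (x j)).Prime) (_ : ∀ i j, IsConj (x i) (x j) → i = j)
    (_ : T = Subgroup.closure {y : G | ∃ j, IsConj (x j) y}) (Q : DP K QBar) (S₀ S' : Finset (Pl K))
    (_ : S' ⊆ S₀) (_ : ∀ v : Pl K, ((m : ℕ) : 𝓞 K) ∈ v.asIdeal → v ∈ S₀)
    (_ : ∀ v ∈ S', ((m : ℕ) : 𝓞 K) ∉ v.asIdeal) (C a b : ℝ) (_ : 2 ≤ C) (_ : 0 < a) (_ : a ≤ b),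
    ∃ c B C1 δ U0 : ℝ, 0 < c ∧ 0 < B ∧ 0 < C1 ∧ 0 < δ ∧ 1 ≤ U0 ∧ FibO m ζ T A x Q S₀ S' C a b c B C1 δ U0

section alg

variable {G : Type} [Group G] {T A : Subgroup G} {hT : T.Normal}
  {hTc : ∀ s ∈ T, ∀ t ∈ T, s * t = t * s}

instance : SMul (MulAut T) (MT T hT hTc) := ⟨fun b t => ⟨(b ⟨t.v, t.m⟩ : T), (b ⟨t.v, t.m⟩).2⟩⟩

theorem msmul_v (b : MulAut T) (t : MT T hT hTc) : (b • t).v = (b ⟨t.v, t.m⟩ : T) := rfl

instance : DistribMulAction (MulAut T) (MT T hT hTc) where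
  one_smul t := MT.ext rfl
  mul_smul a b t := MT.ext rfl
  smul_zero a := by
    apply MT.ext
    exact congrArg Subtype.val (map_one a)
  smul_add a s t := by
    apply MT.ext
    exact congrArg Subtype.val (map_mul a ⟨s.v, s.m⟩ ⟨t.v, t.m⟩)

/-- the action of `A` on `T` -/
def cA (T A : Subgroup G) (hT : T.Normal) : A →* MulAut T := (@MulAut.conjNormal G _ T hT).comp A.subtype

theorem cA_smul (a : A) (t : MT T hT hTc) :
    (⟨cA T A hT a, ⟨a, rfl⟩⟩ : (cA T A hT).range) • t = a • t := by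
  apply MT.ext
  rw [smul_v]
  exact @MulAut.conjNormal_apply G _ T hT (a : G) ⟨t.v, t.m⟩

theorem cA_rr {Γ : Type} [Group Γ] (φ : Γ →* A) (σ : Γ) (t : MT T hT hTc) :
    ((cA T A hT).rangeRestrict.comp φ) σ • t = φ σ • t := cA_smul (φ σ) t

end alg

theorem fib2 : FIB2 := by
  intro K _ hTC m ζ hζ G _ _ hG T A hT hTc hTA hco J _ x hxT hxp hc hgen Q S₀ S' hS'S hS₀ hS' C a b hC ha hab
  -- `m ≠ 0`
  have hm : m ≠ 0 := by
    rintro rfl
    have h1 : FT (1 : Gal(QBar/K) →* Unit) := ⟨⊥, inferInstance, fun _ _ => rfl⟩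
    obtain ⟨S'', h2, h3, -⟩ := spx (1 : Gal(QBar/K) →* Unit) h1 S₀ 1
    obtain ⟨v, hv⟩ := Finset.card_eq_one.1 h2
    have h4 : v ∉ S₀ := Finset.disjoint_left.1 h3 (by rw [hv]; exact Finset.mem_singleton_self v)
    refine h4 (hS₀ v ?_)
    rw [Nat.cast_zero]
    exact v.asIdeal.zero_mem
  have hm0 : 0 < m := Nat.pos_of_ne_zero hm
  have hTG : Nat.card T ∣ Nat.card G := Subgroup.card_subgroup_dvd_card T
  obtain ⟨M, hM⟩ : ∃ M : ℕ, M = ∏ p ∈ (Nat.card T).primeFactors, p := ⟨_, rfl⟩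
  have hT0 : Nat.card T ≠ 0 := Nat.card_pos.ne'
  have hMs : Squarefree M := by
    rw [hM]
    refine Finset.squarefree_prod_of_pairwise_isCoprime ?_ fun p hp =>
      (Nat.prime_of_mem_primeFactors hp).squarefree
    intro p hp q hq hne
    exact Nat.coprime_iff_isRelPrime.1 ((Nat.coprime_primes (Nat.prime_of_mem_primeFactors hp)
      (Nat.prime_of_mem_primeFactors hq)).2 hne)
  have hlM : ∀ l : ℕ, l.Prime → l ∣ M → l ∣ Nat.card T := by
    intro l hl h1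
    rw [hM, Prime.dvd_finsetProd_iff hl.prime] at h1
    obtain ⟨p, hp, h2⟩ := h1
    have h3 := (Nat.prime_dvd_prime_iff_eq hl (Nat.prime_of_mem_primeFactors hp)).1 h2
    rw [h3]
    exact Nat.dvd_of_mem_primeFactors hp
  have hco' : Nat.Coprime (Nat.card T) (Nat.card (cA T A hT).range) := by
    refine Nat.Coprime.coprime_dvd_right (Subgroup.card_dvd_of_le ?_) hco
    rintro _ ⟨a', rfl⟩
    exact ⟨(a' : G), rfl⟩
  have hMA : Nat.Coprime M (Nat.card (cA T A hT).range) := by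
    rw [hM]
    exact Nat.Coprime.prod_left fun p hp => Nat.Coprime.coprime_dvd_left (Nat.dvd_of_mem_primeFactors hp) hco'
  have hxM : ∀ j, x j ^ M = 1 := by
    intro j
    have h1 : orderOf (x j) ∣ Nat.card T := by
      rw [← Subgroup.orderOf_mk (x j) (hxT j)]
      exact orderOf_dvd_natCard _
    have h2 : orderOf (x j) ∣ M := by
      rw [hM]
      exact Finset.dvd_prod_of_mem _ (Nat.mem_primeFactors.2 ⟨hxp j, h1, hT0⟩)
    exact orderOf_dvd_iff_pow_eq_one.1 h2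
  have hlm : ∀ l : ℕ, l.Prime → l ∣ M → l ∣ m := fun l hl h => ((hlM l hl h).trans hTG).trans hG
  have hmem : ∀ l : ℕ, l ∣ m → ∀ v : Pl K, Above l v → ((m : ℕ) : 𝓞 K) ∈ v.asIdeal := by
    rintro l ⟨d, rfl⟩ v hv
    rw [Nat.cast_mul]
    exact v.asIdeal.mul_mem_right _ hv
  let _ : Fintype (cA T A hT).range := Fintype.ofFinite _
  have hlam : 1 ≤ C ^ 3 := one_le_pow₀ (by linarith)
  have hTC' : TC K (Module.finrank ℚ K) := ⟨hTC, rfl⟩
  obtain ⟨c, C1, δ, hc0, hC1, hδ, A0, hmain⟩ := H12.KF.fibre_box hTC' (cA T A hT).range (MT T hT hTc) hMs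
    (fun t => MT.ext (by rw [nsmul_v, zero_v]; exact pow_mt hxT M hxM hgen hT hTc t.v t.m)) hMA
    (fun l => ζ ^ (m / l))
    (fun l hl h => hζ.pow hm0 (Nat.div_mul_cancel (hlm l hl h)).symm)
    J (fun j => (⟨x j, hxT j⟩ : MT T hT hTc)) (fun j => by rw [ord_v]; exact hxp j)
    (by
      rintro i j ⟨_, a', rfl⟩ h
      refine hc i j (isConj_iff.2 ⟨(a' : G)⁻¹, ?_⟩)
      rw [cA_smul] at h
      have h1 : x i = a' * x j * (a' : G)⁻¹ := congrArg MT.v h
      rw [h1]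
      group)
    (by
      rw [eq_top_iff, ← gen_mt hxT hgen hTA hT hTc]
      refine AddSubgroup.closure_mono ?_
      rintro s ⟨j, a', rfl⟩
      exact ⟨j, ⟨cA T A hT a', ⟨a', rfl⟩⟩, (cA_smul a' _).symm⟩) Q S₀ S' hS'S (fun l hl h v hv => hS₀ v (hmem l (hlm l hl h) v hv))
    (fun l hl h v hv hv' => hS' v hv (hmem l (hlm l hl h) v hv')) (C ^ 3) a b hlam ha hab
  refine ⟨c, A0 + 1, C1, δ, 1, hc0, by positivity, by linarith, hδ, le_rfl, ?_⟩
  intro φ hφ hφs hφS Dr hDr hDu g Z U F hU hFa hFb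
  obtain ⟨E₀, hE₀, hE₀'⟩ := hφ
  have hφ'1 : ∀ σ, φ σ = 1 → ((cA T A hT).rangeRestrict.comp φ) σ = 1 := fun σ h => by
    rw [MonoidHom.comp_apply, h, map_one]
  obtain ⟨Xs, hX1, hX2⟩ := hmain ((cA T A hT).rangeRestrict.comp φ)
    ⟨E₀, hE₀, fun σ hσ => hφ'1 σ (hE₀' hσ)⟩
    ((MonoidHom.rangeRestrict_surjective _).comp hφs) (fun v hv σ hσ => hφ'1 σ (hφS v hv σ hσ)) Dr
    (fun v h1 h2 τ hτ => hφ'1 τ (hDu v h1 h2 τ hτ)) U F hU (fun j => ⟨hFa j, hFb j⟩)
  have hcoc : ∀ κ ∈ Xs, ∀ σ τ, κ (σ * τ) = κ σ + φ σ • κ τ := by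
    intro κ hκ σ τ
    rw [(hX2 κ hκ).1 σ τ, cA_rr]
  have hfo : ∀ (t : MT T hT hTc) (v : Pl K),
      H12.KF.fo ((cA T A hT).rangeRestrict.comp φ) Q t v = H12.KF.fo φ Q t v := by
    intro t v
    unfold H12.KF.fo
    ext s
    rw [Set.Finite.mem_toFinset, Set.Finite.mem_toFinset, Set.mem_ofPred_eq, Set.mem_ofPred_eq]
    refine and_congr ?_ ?_
    · constructor
      · rintro ⟨⟨_, a', rfl⟩, rfl⟩
        exact ⟨a', cA_smul a' t⟩
      · rintro ⟨a', rfl⟩
        exact ⟨⟨cA T A hT a', ⟨a', rfl⟩⟩, (cA_smul a' t).symm⟩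
    · refine forall_congr' fun σ => imp_congr Iff.rfl ?_
      rw [cA_rr]
  refine ⟨Xs.attach.image (fun κ => thO φ κ.1 (hcoc κ.1 κ.2)), ?_, ?_⟩
  · rw [Finset.card_image_of_injective, Finset.card_attach]
    · refine le_trans ?_ hX1
      refine mul_le_mul_of_nonneg_left ?_ hc0.le
      refine sub_le_sub ?_ ?_
      · simp only [hfo]
        refine bfx Q S₀ Dr (fun j => stb A (x j)) φ g Z C F
          (fun j v => ((H12.KF.fo φ Q (⟨x j, hxT j⟩ : MT T hT hTc) v).card : ℝ))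
          (fun _ _ => Nat.cast_nonneg _) fun j v hv => ?_
        unfold rr
        rw [if_neg hv, fo_fxp Q φ ⟨E₀, hE₀, hE₀'⟩ v.1 (hDu v.1 v.2 hv) _ (stb A (x j)) fun a' => ?_]
        rw [MT.ext_iff, smul_v]
        rfl
      · have h1 : (1 : ℝ) ≤ nr Dr := one_le_nr Dr
        have h2 : nr Dr ^ A0 ≤ nN Dr ^ ((A0 : ℝ) + 1) := by
          have h3 : nN Dr = nr Dr := rfl
          rw [h3, ← Real.rpow_natCast]
          exact Real.rpow_le_rpow_of_exponent_le h1 (by linarith)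
        have h4 : 0 ≤ ∏ j, F j := Finset.prod_nonneg fun j _ =>
          (Real.rpow_nonneg (by linarith) a).trans (hFa j)
        have h5 : 0 ≤ U ^ (-δ) := Real.rpow_nonneg (by linarith) _
        have h6 : C1 * nr Dr ^ A0 ≤ C1 * nN Dr ^ ((A0 : ℝ) + 1) :=
          mul_le_mul_of_nonneg_left h2 (by linarith)
        exact mul_le_mul_of_nonneg_right (mul_le_mul_of_nonneg_right h6 h4) h5
    · intro κ κ' h
      apply Subtype.ext
      funext σ
      apply MT.ext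
      have h1 := DFunLike.congr_fun h σ
      beta_reduce at h1
      rw [thO_ap, thO_ap] at h1
      exact mul_right_cancel h1
  · intro θ hθ
    rw [Finset.mem_image] at hθ
    obtain ⟨κ, -, rfl⟩ := hθ
    obtain ⟨h1, ⟨E, hE, hE'⟩, h3, f, hf, h4, h5, h6⟩ := hX2 κ.1 κ.2
    obtain ⟨hq, hfd⟩ := bx_mem Q S₀ Dr (fun j => stb A (x j)) φ g Z C F f hf
    refine ⟨?_, _, hq, ?_, ?_⟩
    · intro v hv σ hσ
      rw [thO_ap, h3 v hv σ hσ, zero_v, hφS v hv σ hσ]
      simp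
    · intro j v hv
      rw [Finset.mem_subtype] at hv
      exact (hfd j v.1 hv).2
    · refine ⟨⟨E ⊔ E₀, IntermediateField.finiteDimensional_sup E E₀, fun σ hσ => ?_⟩, fun σ => ?_, ?_, ?_⟩
      · have h7 : σ ∈ E.fixingSubgroup := IntermediateField.fixingSubgroup_le le_sup_left hσ
        have h8 : φ σ = 1 := hE₀' (IntermediateField.fixingSubgroup_le le_sup_right hσ)
        rw [MonoidHom.mem_ker, thO_ap, h8, (hE' σ h7).2, zero_v]
        simp
      · rw [thO_ap]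
        have h7 : (κ.1 σ).v * (φ σ : G) * ((A.subtype.comp φ) σ)⁻¹ = (κ.1 σ).v := by
          rw [MonoidHom.comp_apply, Subgroup.subtype_apply, mul_inv_cancel_right]
        rw [h7]
        exact (κ.1 σ).m
      · intro j v hv
        rw [Finset.mem_subtype] at hv
        obtain ⟨g', hg'⟩ := h6 j v.1 hv
        obtain ⟨_, a', rfl⟩ := g'
        refine ⟨(a' : G), fun τ hτ => ?_⟩
        have h7 := hg' (uf v.1) (ord_uf v.1) τ hτ
        rw [cA_smul] at h7
        rw [thO_ap, h7, nsmul_v, smul_v, ord_v, hDu v.1 v.2 (hfd j v.1 hv).2 τ hτ]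
        unfold tx
        rw [conj_pow]
        simp
      · intro v hv
        have hvf : ∀ j, v.1 ∉ f j := fun j hj => hv j (by rw [Finset.mem_subtype]; exact hj)
        by_cases hvD : v.1 ∈ Dr
        · obtain ⟨t, ht⟩ := h5 v.1 v.2 hvD
          refine ⟨t.v⁻¹, T.inv_mem t.m, fun τ hτ => ?_⟩
          rw [thO_ap, ht τ hτ, cA_rr, sub_v, smul_v, MonoidHom.comp_apply, Subgroup.subtype_apply]
          have h7 := hTc _ (hT.conj_mem _ t.m (φ τ : G)) _ (T.inv_mem t.m)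
          rw [h7]
          group
        · refine ⟨1, T.one_mem, fun τ hτ => ?_⟩
          rw [thO_ap, h4 v.1 v.2 hvD hvf τ hτ, zero_v, MonoidHom.comp_apply, Subgroup.subtype_apply]
          simp

end H51.K2
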