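import Pool.Agent.H51.K2.One
import Pool.Agent.H51.K2.Fib2
import Pool.Agent.H51.K2.Unq
import Pool.Agent.H51.K1.Cnt
import Pool.Agent.H51.K1.Ko

/-!
# [H51 K2 Bas2] THE ASSEMBLY of K2 with FIB2 (coprimality of `T` and the group which acts on `T`)

`cor3`: for one `K` the conclusion `Bh`. `k2core2`: `BASE` for `G = T ⋊ A`.
-/

set_option autoImplicit false

open scoped NumberField Classical
open IsDedekindDomain H38.ML Pool.Agent.H36.RS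

noncomputable section

namespace H51.K2

open H63.MA H38.BB H38.BG H77.PC3 H51.SN H57.SL H36.QA H88.LH H51.K1

private theorem un {α β : Type} (B : Finset β) (P : α → β → Prop) (c : ℝ)
    (h : ∀ b ∈ B, ∃ R : Finset α, c ≤ (R.card : ℝ) ∧ ∀ θ ∈ R, P θ b)
    (hu : ∀ θ b b', P θ b → P θ b' → b = b') :
    ∃ R : Finset α, (B.card : ℝ) * c ≤ (R.card : ℝ) ∧ ∀ θ ∈ R, ∃ b ∈ B, P θ b := by
  have h' : ∀ b, ∃ R : Finset α, (b ∈ B → c ≤ (R.card : ℝ)) ∧ ∀ θ ∈ R, P θ b := by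
    intro b
    by_cases hb : b ∈ B
    · obtain ⟨R, h1, h2⟩ := h b hb
      exact ⟨R, fun _ => h1, h2⟩
    · exact ⟨∅, fun h => absurd h hb, by simp⟩
  choose R hR1 hR2 using h'
  refine ⟨B.biUnion R, ?_, ?_⟩
  · rw [Finset.card_biUnion]
    · push_cast
      rw [← nsmul_eq_mul]
      exact Finset.card_nsmul_le_sum B _ _ fun b hb => hR1 b hb
    · intro b _ b' _ hne
      refine Finset.disjoint_left.2 ?_
      intro θ h1 h2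
      exact hne (hu θ b b' (hR2 b θ h1) (hR2 b' θ h2))
  · intro θ hθ
    obtain ⟨b, hb, h1⟩ := Finset.mem_biUnion.1 hθ
    exact ⟨b, hb, hR2 b θ h1⟩

private theorem pwu {C N : ℝ} (hC : 2 ≤ C) {i j : ℕ} (h1 : C ^ i < N) (h2 : N ≤ C * C ^ i)
    (h3 : C ^ j < N) (h4 : N ≤ C * C ^ j) : i = j := by
  have h5 : C ^ i < C ^ (j + 1) := by
    rw [pow_succ, mul_comm]
    exact lt_of_lt_of_le h1 h4
  have h6 : C ^ j < C ^ (i + 1) := by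
    rw [pow_succ, mul_comm]
    exact lt_of_lt_of_le h3 h2
  have hC1 : 1 < C := by linarith
  have h7 := (pow_lt_pow_iff_right₀ hC1).1 h5
  have h8 := (pow_lt_pow_iff_right₀ hC1).1 h6
  omega

variable {K : IntermediateField ℚ QBar} [NumberField K]

private theorem nN_nonneg (s : Finset (Pl K)) : 0 ≤ nN s :=
  Finset.prod_nonneg fun _ _ => Nat.cast_nonneg _

private theorem nN_UI {m : ℕ} {ζ : K} {A : Type} [Group A] {Q : DP K QBar}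
    {S₀ S' : Finset (Pl K)} {I : Type} [Fintype I] {o : I → A} {D : I → Finset (Pl K)} {φ : Gal(QBar/K) →* A}
    (h : TyB Q m ζ S₀ S' o D φ) : nN (UI D) = ∏ i, nN (D i) := by
  unfold nN UI
  rw [Finset.prod_biUnion]
  intro k _ k' _ hk
  exact h.dis k k' hk

private theorem fib_mono {m : ℕ} {ζ : K} {G : Type} [Group G] {T A : Subgroup G}
    {J : Type} [Fintype J] {x : J → G} {Q : DP K QBar} {S₀ S' : Finset (Pl K)} {C a b b' c B C1 δ U0 : ℝ}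
    (hU : 1 ≤ U0) (hb : b' ≤ b) (h : FibO m ζ T A x Q S₀ S' C a b c B C1 δ U0) :
    FibO m ζ T A x Q S₀ S' C a b' c B C1 δ U0 := by
  intro φ h1 h2 h3 Dr h4 h5 g Z U F h6 h7 h8
  exact h φ h1 h2 h3 Dr h4 h5 g Z U F h6 h7
    fun j => (h8 j).trans (Real.rpow_le_rpow_of_exponent_le (hU.trans h6) hb)

theorem cor3 (hFAM : FAM2) (hFIB : FIB2) {K : IntermediateField ℚ QBar} [NumberField K]
    (hTC : NumberField.IsTotallyComplex K) {m : ℕ} {ζ : K} (hζ : IsPrimitiveRoot ζ m) {G : Type} [Group G] [Finite G]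
    (hG : Nat.card G ∣ m) (hm : 0 < m) (T A : Subgroup G) (hT : T.Normal) (hTc : ∀ s ∈ T, ∀ t ∈ T, s * t = t * s)
    (hTA : Subgroup.IsComplement' T A) (hco : Nat.Coprime (Nat.card T) (Nat.card (@MulAut.conjNormal G _ T hT).range)) (C : Set G)
    (hC : ∀ y ∈ C, ∀ g : G, g * y * g⁻¹ ∈ C) (hCp : ∀ y ∈ C, (orderOf y).Prime) (k : ℕ) (o : Fin k → A)
    (ho : ∀ i, (o i : G) ∈ C) (hoc : ∀ i j, IsConj (o i) (o j) → i = j)
    (hcom : ∀ i j (a b : A), (a * o i * a⁻¹) * (b * o j * b⁻¹) = (b * o j * b⁻¹) * (a * o i * a⁻¹))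
    (n : ℕ) (x : Fin (n + 1) → G) (hx : ∀ j, x j ∈ C) (hxT : ∀ j, x j ∈ T)
    (hc : ∀ i j, IsConj (x i) (x j) → i = j) (hgen : T = Subgroup.closure {y : G | ∃ j, IsConj (x j) y})
    (Q : DP K QBar) (φ₀ : Gal(QBar/K) →* A) (hφ₀ : FT φ₀) (hs : Function.Surjective φ₀) (S₁ S' : Finset (Pl K))
    (hS₁ : ∀ v : Pl K, ((m : ℕ) : 𝓞 K) ∈ v.asIdeal → v ∈ S₁) (hS' : ∀ v ∈ S', ((m : ℕ) : 𝓞 K) ∉ v.asIdeal)
    (hS'S : S' ⊆ S₁) (hd : ∀ v ∈ S', ∀ σ ∈ dec (K := K) (Q.P v), φ₀ σ = 1) :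
    ∃ (S₀ : Finset (Pl K)) (c Y₀ : ℝ), S₁ ⊆ S₀ ∧ 0 < c ∧ ∀ Y : ℝ, Y₀ ≤ Y →
      Bh C (k + (n + 1)) Q S₀ S' c Y := by
  have hL : ∀ i, (orderOf (o i)).Prime := by
    intro i
    have h1 := hCp _ (ho i)
    rwa [Subgroup.orderOf_coe] at h1
  have hcA : Nat.card A ∣ m := (Subgroup.card_subgroup_dvd_card A).trans hG
  have hkf : Fintype.card (Fin k) = k := Fintype.card_fin k
  obtain ⟨S₀, Cr, θ, η, c0, Z0, hS₁S, hCr, hθ, hη, hc0, hfam⟩ := hFAM K hTC m ζ hζ A hcA hm (Fin k) o hL hoc hcom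
    (Fin (n + 1)) (fun j => stb A (x j)) Q φ₀ hφ₀ hs S₁ S' hS' hd
  have hk0 : (0 : ℝ) ≤ k := Nat.cast_nonneg k
  have hn0 : (0 : ℝ) ≤ n := Nat.cast_nonneg n
  obtain ⟨bf, hbf⟩ : ∃ bf : ℝ, bf = 2 * k + 2 * (n + 1) + 1 := ⟨_, rfl⟩
  have hbf1 : 1 ≤ bf := by rw [hbf]; linarith
  obtain ⟨c1, B, C1, δ, U0, hc1, hB, hC1, hδ, hU0, hfib⟩ := hFIB K hTC m ζ hζ G hG T A hT hTc hTA hco
    (Fin (n + 1)) x hxT (fun j => hCp _ (hx j)) hc hgen Q S₀ S' (hS'S.trans hS₁S)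
    (fun v hv => hS₁S (hS₁ v hv)) hS' Cr 1 bf hCr one_pos hbf1
  obtain ⟨a, had⟩ : ∃ a : ℝ, a = max 1 ((2 * k * B + 1) / δ) := ⟨_, rfl⟩
  have ha1 : 1 ≤ a := by rw [had]; exact le_max_left _ _
  have ha0 : 0 < a := by linarith
  have ha2 : 2 * (Fintype.card (Fin k) : ℝ) * B + 1 ≤ a * δ := by
    rw [hkf]
    have h1 : (2 * k * B + 1) / δ ≤ a := by rw [had]; exact le_max_right _ _
    rwa [div_le_iff₀ hδ] at h1
  obtain ⟨b, hb⟩ : ∃ b : ℝ, b = 2 * k + 2 * a * (n + 1) + 1 := ⟨_, rfl⟩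
  have hab : a ≤ b := by
    rw [hb]
    nlinarith [mul_nonneg ha0.le hn0]
  have hb0 : 0 < b := by linarith
  have hba : b / a ≤ bf := by
    rw [div_le_iff₀ ha0, hb, hbf]
    nlinarith [mul_nonneg (sub_nonneg.2 ha1) hk0]
  have hfib' := fib_mono hU0 hba hfib
  obtain ⟨c2, Z1, hc2, -, hrb⟩ := rbox Cr θ η a b (n + 1) hCr hθ hη ha0 hab
  obtain ⟨c3, Z2, hc3, hone⟩ := one T A hTA.isCompl.inf_eq_bot (Fin (n + 1)) x Q S₀ S' (Fin k) o Cr θ η c0 c1 c2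
    B C1 δ U0 a b Z1 hCr hc0 hc1 hc2 hB hC1 hδ ha1 ha2 hfib'
    (fun V Φ _ _ D Z hZ hH F hFa hFb => hrb V (Fin (n + 1)) Φ D 1 Z hZ (Fintype.card_fin _) hH F hFa hFb)
  obtain ⟨c4, Y4, hc4, hY4, hbx⟩ := boxes (Fin k) n Cr a hCr ha0
  have hCr0 : 0 < Cr := by linarith
  have hCr1 : 1 ≤ Cr := by linarith
  have hCr3 : 2 ≤ Cr ^ 3 := by
    have h1 : Cr ^ 1 ≤ Cr ^ 3 := pow_le_pow_right₀ hCr1 (by norm_num)
    rw [pow_one] at h1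
    linarith
  have hE0 : 0 < Cr ^ 3 * (Cr ^ k * (Cr ^ 3) ^ (n + 1)) := by positivity
  refine ⟨S₀, c4 * (c3 / (Cr ^ 3 * (Cr ^ k * (Cr ^ 3) ^ (n + 1)))), max Y4 ((max 1 (max Z0 Z2)) ^ b),
    hS₁S, by positivity, fun Y hY => ?_⟩
  have hYa : Y4 ≤ Y := (le_max_left _ _).trans hY
  have hYb : (max 1 (max Z0 Z2)) ^ b ≤ Y := (le_max_right _ _).trans hY
  have hY1 : 1 ≤ Y := hY4.trans hYa
  have hY0 : 0 < Y := by linarith
  obtain ⟨Bx, hBx1, hBx2⟩ := hbx b (by rw [hb, hkf]) Y hYa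
  obtain ⟨Z, hZd⟩ : ∃ Z : ℝ, Z = Y ^ (1 / b) := ⟨_, rfl⟩
  have hZm : max 1 (max Z0 Z2) ≤ Z := by
    have h1 : ((max 1 (max Z0 Z2)) ^ b) ^ (1 / b) ≤ Y ^ (1 / b) :=
      Real.rpow_le_rpow (Real.rpow_nonneg (le_trans zero_le_one (le_max_left _ _)) _) hYb (by positivity)
    rw [← Real.rpow_mul (le_trans zero_le_one (le_max_left _ _)), mul_one_div_cancel hb0.ne',
      Real.rpow_one] at h1
    rw [hZd]
    exact h1
  have hZ1 : 1 ≤ Z := (le_max_left _ _).trans hZm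
  have hZ0 : Z0 ≤ Z := ((le_max_left _ _).trans (le_max_right _ _)).trans hZm
  have hZ2 : Z2 ≤ Z := ((le_max_right _ _).trans (le_max_right _ _)).trans hZm
  rw [← hZd] at hBx2
  -- the union over the boxes
  obtain ⟨P, hP⟩ : ∃ P : (Gal(QBar/K) →* G) → ((Fin k → ℕ) × (Fin (n + 1) → ℕ)) → Prop,
      P = fun ϑ b =>
      (∀ v ∈ S', ∀ σ ∈ dec (K := K) (Q.P v), ϑ σ = 1) ∧
      ∃ (φ : Gal(QBar/K) →* A) (D : Fin k → Finset (Pl K)) (q : Fin (n + 1) → Finset (Vx S₀)),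
        TyB Q m ζ S₀ S' o D φ ∧ (∀ o, Cr ^ (b.1 o) < nN (D o) ∧ nN (D o) ≤ Cr * Cr ^ (b.1 o)) ∧
        (∀ j, (Cr ^ 3) ^ (b.2 j) < ∏ v ∈ q j, (nm v.1 : ℝ)) ∧
        (∀ j, ∏ v ∈ q j, (nm v.1 : ℝ) ≤ Cr ^ 3 * (Cr ^ 3) ^ (b.2 j)) ∧
        (∀ j, ∀ v ∈ q j, v.1 ∉ UI D) ∧ TyT Q m ζ S₀ T x (A.subtype.comp φ) q ϑ := ⟨_, rfl⟩
  have g1 : ∀ b ∈ Bx, ∃ R : Finset (Gal(QBar/K) →* G),
      c3 / (Cr ^ 3 * (Cr ^ k * (Cr ^ 3) ^ (n + 1))) * Y ≤ (R.card : ℝ) ∧ ∀ θ ∈ R, P θ b := by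
    rw [hP]
    rintro ⟨i, e⟩ hie
    obtain ⟨h1, h2, h3, h4, -, h6⟩ := hBx2 (i, e) hie
    obtain ⟨X, hX⟩ : ∃ X : Fin k → ℝ, X = fun o => Cr ^ (i o) := ⟨_, rfl⟩
    have hXL : ∀ o, X o = Cr ^ (i o) := by
      intro o
      rw [hX]
    have hXa : ∀ o, Z ≤ X o := by
      intro o
      rw [hXL o]
      exact h1 o
    have hXb : ∀ o, X o ≤ Z ^ 2 := by
      intro o
      rw [hXL o]
      exact h2 o
    obtain ⟨ι, hι, φ, D, g, hinj, hcard, hTy, hN, hHyp⟩ := hfam Z hZ0 X hXa hXb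
    obtain ⟨Rs, hRs1, hRs2⟩ := hone Z hZ2 X hXa hXb ι hι φ D g hinj hcard hTy hN hHyp
      (fun j => (Cr ^ 3) ^ (e j)) h3 h4
    refine ⟨Rs, le_trans ?_ hRs1, fun ϑ hϑ => ?_⟩
    · have h7 : ∏ o, X o = ∏ o, Cr ^ (i o) := Finset.prod_congr rfl fun o _ => hXL o
      rw [h7]
      have h8 : (∏ o, Cr * Cr ^ (i o)) * (∏ j, Cr ^ 3 * (Cr ^ 3) ^ (e j)) =
          (Cr ^ k * (Cr ^ 3) ^ (n + 1)) * ((∏ o, Cr ^ (i o)) * ∏ j, (Cr ^ 3) ^ (e j)) := by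
        rw [Finset.prod_mul_distrib, Finset.prod_mul_distrib, Finset.prod_const, Finset.prod_const,
          Finset.card_univ, Finset.card_univ, hkf, Fintype.card_fin]
        ring
      simp only at h6
      rw [h8] at h6
      have h9 : 0 < Cr ^ k * (Cr ^ 3) ^ (n + 1) := by positivity
      have h10 : Y / Cr ^ 3 / (Cr ^ k * (Cr ^ 3) ^ (n + 1)) ≤
          (∏ o, Cr ^ (i o)) * ∏ j, (Cr ^ 3) ^ (e j) := by
        rw [div_le_iff₀ h9]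
        linarith
      calc c3 / (Cr ^ 3 * (Cr ^ k * (Cr ^ 3) ^ (n + 1))) * Y
          = c3 * (Y / Cr ^ 3 / (Cr ^ k * (Cr ^ 3) ^ (n + 1))) := by
            field_simp
        _ ≤ c3 * ((∏ o, Cr ^ (i o)) * ∏ j, (Cr ^ 3) ^ (e j)) :=
            mul_le_mul_of_nonneg_left h10 hc3.le
        _ = c3 * (∏ o, Cr ^ (i o)) * ∏ j, (Cr ^ 3) ^ (e j) := by ring
    · obtain ⟨hdec, i', q, hq1, hq2, hqU, hT'⟩ := hRs2 ϑ hϑ
      refine ⟨hdec, φ i', D i', q, hTy i', fun o => ?_, hq1, hq2, hqU, hT'⟩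
      have h7 := hN i' o
      rw [hXL o] at h7
      exact h7
  have g2 : ∀ θ b b', P θ b → P θ b' → b = b' := by
    rw [hP]
    rintro ϑ ⟨i, e⟩ ⟨i', e'⟩ ⟨-, φ, D, q, hA, hAD, hq1, hq2, hqU, hTy⟩
      ⟨-, φ', D', q', hA', hAD', hq1', hq2', hqU', hTy'⟩
    have hφ : φ = φ' := tyT_phi Q hTA.isCompl.inf_eq_bot hTy hTy'
    subst hφ
    have hS₀ : ∀ v : Pl K, ((m : ℕ) : 𝓞 K) ∈ v.asIdeal → v ∈ S₀ := fun v hv => hS₁S (hS₁ v hv)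
    have hD : D = D' := tyB_unq Q hζ hcA hS₀ hL hoc hA hA'
    subst hD
    have hφu : ∀ v, v ∉ S₀ → v ∉ UI D → ∀ τ ∈ (Q.P v).inertia Gal(QBar/K),
        (A.subtype.comp φ) τ = 1 := by
      intro v hv hvD τ hτ
      have h1 := hA.unr v hv (fun o ho => hvD (by
        unfold UI
        rw [Finset.mem_biUnion]
        exact ⟨o, Finset.mem_univ o, ho⟩)) τ hτ
      rw [MonoidHom.comp_apply, h1, map_one]
    have hq : q = q' := tyT_unq Q hζ hG hS₀ (fun j => hCp _ (hx j)) hc hφu hqU hqU' hTy hTy'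
    subst hq
    refine Prod.ext (funext fun o => ?_) (funext fun j => ?_)
    · exact pwu hCr (hAD o).1 (hAD o).2 (hAD' o).1 (hAD' o).2
    · exact pwu hCr3 (hq1 j) (hq2 j) (hq1' j) (hq2' j)
  obtain ⟨R, hR1, hR2⟩ := un Bx P _ g1 g2
  rw [hP] at hR2
  refine ⟨R, ?_, fun ϑ hϑ => ?_⟩
  · refine le_trans ?_ hR1
    rw [show k + (n + 1) - 1 = k + n by omega]
    rw [hkf] at hBx1
    calc c4 * (c3 / (Cr ^ 3 * (Cr ^ k * (Cr ^ 3) ^ (n + 1)))) * Y * Real.log Y ^ (k + n)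
        = (c4 * Real.log Y ^ (k + n)) * (c3 / (Cr ^ 3 * (Cr ^ k * (Cr ^ 3) ^ (n + 1))) * Y) := by ring
      _ ≤ (Bx.card : ℝ) * (c3 / (Cr ^ 3 * (Cr ^ k * (Cr ^ 3) ^ (n + 1))) * Y) :=
        mul_le_mul_of_nonneg_right hBx1 (by positivity)
  · obtain ⟨b', hb', hdec, φ, D, q, hA, hAD, hq1, hq2, hqU, hTy⟩ := hR2 ϑ hϑ
    obtain ⟨-, -, -, -, hYle, -⟩ := hBx2 b' hb'
    refine ⟨hTy.ft, ?_, hdec, ?_⟩
    · refine tyT_srj Q hζ hG (fun v hv => hS₁S (hS₁ v hv)) hT hTc hTA.isCompl.sup_eq_top hxT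
        (fun j => hCp _ (hx j)) hgen hA.srj ?_ hTy
      intro j
      by_contra hne
      rw [Finset.not_nonempty_iff_eq_empty] at hne
      have h1 := hq1 j
      rw [hne, Finset.prod_empty] at h1
      have h2 : 1 ≤ (Cr ^ 3) ^ (b'.2 j) := one_le_pow₀ (by linarith)
      linarith
    · refine tyB_tm Q hT hC hx ho hA hTy Y ?_
      refine le_trans ?_ hYle
      rw [nN_UI hA]
      refine mul_le_mul ?_ ?_ ?_ ?_
      · exact Finset.prod_le_prod (fun o _ => nN_nonneg _) fun o _ => (hAD o).2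
      · exact Finset.prod_le_prod (fun j _ => Finset.prod_nonneg fun _ _ => Nat.cast_nonneg _)
          fun j _ => hq2 j
      · exact Finset.prod_nonneg fun j _ => Finset.prod_nonneg fun _ _ => Nat.cast_nonneg _
      · exact Finset.prod_nonneg fun o _ => by positivity

theorem k2core2 (hFAM : FAM2) (hFIB : FIB2) {G : Type} [Group G] [Finite G] (T A : Subgroup G) (hT : T.Normal)
    (hTc : ∀ s ∈ T, ∀ t ∈ T, s * t = t * s) (hTA : Subgroup.IsComplement' T A)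
    (hco : Nat.Coprime (Nat.card T) (Nat.card (@MulAut.conjNormal G _ T hT).range)) (C : Set G) (hC : ∀ y ∈ C, ∀ g : G, g * y * g⁻¹ ∈ C)
    (hCp : ∀ y ∈ C, (orderOf y).Prime) (k : ℕ) (o : Fin k → A)
    (ho : ∀ i, (o i : G) ∈ C) (hoc : ∀ i j, IsConj (o i) (o j) → i = j)
    (hcom : ∀ i j (a b : A), (a * o i * a⁻¹) * (b * o j * b⁻¹) = (b * o j * b⁻¹) * (a * o i * a⁻¹))
    (n : ℕ) (x : Fin (n + 1) → G) (hx : ∀ j, x j ∈ C) (hxT : ∀ j, x j ∈ T)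
    (hc : ∀ i j, IsConj (x i) (x j) → i = j) (hgen : T = Subgroup.closure {y : G | ∃ j, IsConj (x j) y}) :
    BASE C (k + (n + 1)) :=
  k1core_of T A hT hTA C _ fun _ _ hTC _ _ hζ hG hm Q φ₀ hφ₀ hs S₁ S' h1 h2 h3 h4 =>
    cor3 hFAM hFIB hTC hζ hG hm T A hT hTc hTA hco C hC hCp k o ho hoc hcom n x hx hxT hc hgen Q φ₀ hφ₀ hs S₁ S'
      h1 h2 h3 h4

end H51.K2
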