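import Pool.Agent.H51.K2.Spec
import Pool.Agent.H51.K2.B1
import Pool.Agent.H88.LB.Cls
import Pool.Agent.H35.SN.Ty

/-!
# [H51 K2 MC] `BASE` for the class `MC`

`TWOB`: `BASE` for `Two` (helper71). `LFU`: the step for coprime action (by units). `mc_base`: `BASE1` for `MC`.
-/

set_option autoImplicit false

open scoped NumberField
open IsDedekindDomain H38.ML
open scoped Classical

noncomputable section

namespace H51.K2

open H63.MA H38.BB H38.BG H77.PC3 H77.PLF H51.HD H51.HC H51.F3 H51.F4 H88.LH H35.SN H88.LB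

/-- `BASE` for `Two` -/
def TWOB : Prop :=
  ∀ (G : Type) [Group G] [Finite G] (C : Set G) (_ : ∀ x ∈ C, (orderOf x).Prime)
    (_ : ∀ x ∈ C, ∀ g : G, g * x * g⁻¹ ∈ C) (N A : Subgroup G) [N.Normal] (_ : Two C N A) (r : ℕ) (_ : 1 ≤ r)
    (g : Fin r → G) (_ : ∀ i j, IsConj (g i) (g j) → i = j) (_ : ∀ x, x ∈ C ↔ ∃ i, IsConj x (g i)), BASE C r

/-- the step for abelian kernels with coprime action -/
def LFU : Prop :=
  ∀ (G Gb : Type) [Group G] [Finite G] [Group Gb] (π : G →* Gb) (_ : Function.Surjective π)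
    (_ : ∀ a b : G, π a = 1 → π b = 1 → a * b = b * a) (s : Gb →* G) (_ : ∀ h, π (s h) = h)
    (Z : Subgroup Gb) (_ : ∀ z ∈ Z, ∀ a : G, π a = 1 → s z * a = a * s z)
    (_ : Nat.Coprime Z.index (Nat.card π.ker)), LF1 π s

private theorem ord_eq {G : Type} [Group G] {x y : G} (h : IsConj x y) : orderOf x = orderOf y := by
  obtain ⟨c, rfl⟩ := isConj_iff.1 h
  have h1 : c * x * c⁻¹ = MulAut.conj c x := rfl
  rw [h1, MulEquiv.orderOf_eq]

theorem mc_base (hA : ∀ p : ℕ, p.Prime → APm4 p) (hU : ∀ p : ℕ, p.Prime → APu3 p) (hst : STP) (h2 : TWOB)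
    (hlf : LFU)
    {G : Type} [Group G] {L : Set G} (h : MC L) :
    ∀ [Finite G] (N : ℕ) (_ : 1 ≤ N) (g : Fin N → G) (_ : ∀ i j, IsConj (g i) (g j) → i = j)
      (_ : ∀ x, x ∈ L ↔ ∃ i, IsConj x (g i)) (_ : ∀ x ∈ L, (orderOf x).Prime)
      (_ : ∀ x ∈ L, ∀ j : ℕ, Nat.Coprime j (orderOf x) → x ^ j ∈ L), BASE1 L N := by
  induction h with
  | @two G _ L N A _ h =>
    intro _ r hr g uni hI hp _
    refine base_base1 (h2 G L hp (fun x hx y => ?_) N A h r hr g uni hI)
    obtain ⟨i, hi⟩ := (hI x).1 hx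
    exact (hI _).2 ⟨i, (isConj_iff.2 ⟨y, rfl⟩ : IsConj x _).symm.trans hi⟩
  | loc L p hp hL h =>
    intro _ r hr g uni hI hpr hpw
    have hgL : ∀ i, g i ∈ L := fun i => (hI _).2 ⟨i, IsConj.refl _⟩
    refine base_base1 (lc_base hA hU hst hp h r hr ⟨g, fun i => hL _ (hgL i), fun i hi => ?_, uni⟩ ?_ ?_)
    · have h3 := hpr _ (hgL i)
      rw [hi, orderOf_one] at h3
      exact Nat.not_prime_one h3
    · ext x
      exact hI x
    · intro x hx j hj
      refine hpw x hx j ?_
      have h3 : orderOf x = p :=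
        (Nat.prime_dvd_prime_iff_eq (hpr x hx) hp).1 (orderOf_dvd_of_pow_eq_one (hL x hx))
      rw [h3, Nat.coprime_comm]
      exact (Nat.Prime.coprime_iff_not_dvd hp).2 hj
  | @step G Gb _ _ L π hπ h ih =>
    intro _ r hr g uni hI hpr hpw
    have hsur := hπ.surjective
    have hcom := hπ.comm
    have : Finite Gb := Finite.of_surjective π hsur
    obtain ⟨s, hsec, hsL⟩ := hπ.split
    have hsi : Function.Injective s := Function.LeftInverse.injective hsec
    -- every element of `L` is conjugate to its image in the complement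
    have hLs : ∀ x ∈ L, IsConj (s (π x)) x := by
      intro x hx
      obtain ⟨c, y, hy⟩ := hsL x hx
      have h3 : y = π c * π x * (π c)⁻¹ := by
        rw [← hsec y, hy, map_mul, map_mul, map_inv]
      have h4 : IsConj (s (π x)) (s y) := by
        rw [h3, map_mul, map_mul, map_inv]
        exact isConj_iff.2 ⟨s (π c), rfl⟩
      rw [hy] at h4
      exact h4.trans (isConj_iff.2 ⟨c, rfl⟩ : IsConj x _).symm
    have hord : ∀ x ∈ L, orderOf (π x) = orderOf x := by
      intro x hx
      rw [← ord_eq (hLs x hx)]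
      exact (orderOf_injective s hsi _).symm
    -- classes
    have key : ∀ x ∈ L, ∀ y ∈ L, IsConj (π y) (π x) → IsConj y x := by
      intro x hx y hy hxy
      exact (hLs y hy).symm.trans ((MonoidHom.map_isConj s hxy).trans (hLs x hx))
    have hcc : ∀ x ∈ L, ∀ y : G, y * x * y⁻¹ ∈ L := by
      intro x hx y
      obtain ⟨i, hi⟩ := (hI x).1 hx
      exact (hI _).2 ⟨i, (isConj_iff.2 ⟨y, rfl⟩ : IsConj x _).symm.trans hi⟩
    have hgL : ∀ i, g i ∈ L := fun i => (hI _).2 ⟨i, IsConj.refl _⟩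
    have hsL' : ∀ y ∈ π '' L, s y ∈ L := by
      rintro _ ⟨x, hx, rfl⟩
      obtain ⟨c, hc⟩ := isConj_iff.1 (hLs x hx).symm
      rw [← hc]
      exact hcc x hx c
    have hb : BASE1 (π '' L) r := by
      refine ih r hr (fun i => π (g i)) ?_ ?_ ?_ ?_
      · intro i j hij
        exact uni i j (key _ (hgL j) _ (hgL i) hij)
      · intro y
        constructor
        · rintro ⟨x, hx, rfl⟩
          obtain ⟨i, hi⟩ := (hI x).1 hx
          exact ⟨i, MonoidHom.map_isConj π hi⟩
        · rintro ⟨i, hi⟩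
          obtain ⟨c, hc⟩ := isConj_iff.1 hi.symm
          obtain ⟨c', rfl⟩ := hsur c
          refine ⟨c' * g i * c'⁻¹, hcc _ (hgL i) c', ?_⟩
          rw [← hc, map_mul, map_mul, map_inv]
      · rintro _ ⟨x, hx, rfl⟩
        rw [hord x hx]
        exact hpr x hx
      · rintro _ ⟨x, hx, rfl⟩ j hj
        rw [hord x hx] at hj
        exact ⟨x ^ j, hpw x hx j hj, map_pow π x j⟩
    rcases hπ.kind with hco | ⟨hne, hmin, ⟨l, hl, he⟩, hpj⟩
    · have hab : ∀ a b : G, π a = 1 → π b = 1 → a * b = b * a := fun a b ha hb' =>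
        congrArg Subtype.val (hcom.is_comm.comm (⟨a, ha⟩ : π.ker) ⟨b, hb'⟩)
      have hap : ∀ (h : Gb) (x : π.ker), ((((MulAut.conjNormal : G →* MulAut π.ker).comp s) h x : π.ker) : G) =
          s h * x * (s h)⁻¹ := by
        intro h x
        show (((MulAut.conjNormal : G →* MulAut π.ker) (s h) x : π.ker) : G) = _
        rw [MulAut.conjNormal_apply]
      have hr' : ((MulAut.conjNormal : G →* MulAut π.ker).comp s).range =
          (MulAut.conjNormal : G →* MulAut π.ker).range := by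
        ext a
        constructor
        · rintro ⟨h, rfl⟩
          exact ⟨s h, rfl⟩
        · rintro ⟨y, rfl⟩
          refine ⟨π y, ?_⟩
          refine MulEquiv.ext fun x => Subtype.ext ?_
          rw [hap, MulAut.conjNormal_apply]
          have h3 : π (y * (s (π y))⁻¹) = 1 := by rw [map_mul, map_inv, hsec, mul_inv_cancel]
          have h4 : s (π y) * x * (s (π y))⁻¹ ∈ π.ker := by
            rw [MonoidHom.mem_ker, map_mul, map_mul, map_inv, (x.2 : π x = 1), mul_one, mul_inv_cancel]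
          have h5 := hab _ _ h3 h4
          have h6 : y * (x : G) * y⁻¹ = y * (s (π y))⁻¹ * (s (π y) * x * (s (π y))⁻¹) * (y * (s (π y))⁻¹)⁻¹ := by
            group
          rw [h6, h5, mul_inv_cancel_right]
      refine base1_lf1 (hlf G Gb π hsur hab s hsec ((MulAut.conjNormal : G →* MulAut π.ker).comp s).ker ?_ ?_)
        L (π '' L) hsL' hcc hb
      · intro z hz a ha
        have h3 := congrArg (fun f : MulAut π.ker => ((f ⟨a, ha⟩ : π.ker) : G)) (hz : _ = (1 : MulAut π.ker))
        have h4 : s z * a * (s z)⁻¹ = a := by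
          rw [← hap z ⟨a, ha⟩]
          exact h3
        exact mul_inv_eq_iff_eq_mul.1 h4
      · rw [Subgroup.index_ker, hr', Nat.coprime_comm]
        exact hco
    · have hS : STEP l π := ⟨hl, hsur, hne, hcom, he, hmin, ⟨s, hsec⟩, hpj⟩
      exact base1_lfs hl.pos (H71.KA.lfs_step hst hS s hsec) hsur L (π '' L) hsL' hcc hb

end H51.K2
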