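import Pool.Agent.H51.K2.Def
import Pool.Agent.H51.K1.Unq
import Pool.Agent.H51.K1.Srj
import Pool.Agent.H36.RS.En2

/-!
# [H51 K2 One] One box: many typed homomorphisms to `G = T ⋊ A`, `A` arbitrary (as H51/K1/One, with `TyB`, `UI`)
-/

set_option autoImplicit false

open scoped NumberField Classical
open IsDedekindDomain H38.ML Pool.Agent.H36.RS

noncomputable section

namespace H51.K2

open H63.MA H38.BB H38.BG H77.PC3 H51.SN H57.SL H36.QA H88.LH H51.K1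

variable {K : IntermediateField ℚ QBar} [NumberField K]

private theorem nN_nonneg (s : Finset (Pl K)) : 0 ≤ nN s := Finset.prod_nonneg fun _ _ => Nat.cast_nonneg _

private theorem nN_UI {A : Type} [Group A] {Q : DP K QBar} {m : ℕ} {ζ : K} {S₀ S' : Finset (Pl K)}
    {I : Type} [Fintype I] {o : I → A} {D : I → Finset (Pl K)} {φ : Gal(QBar/K) →* A}
    (h : TyB Q m ζ S₀ S' o D φ) (M : ℝ) (hM : ∀ k, nN (D k) ≤ M) : nN (UI D) ≤ M ^ (Fintype.card I) := by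
  have e1 : nN (UI D) = ∏ k, nN (D k) := by
    unfold nN UI
    rw [Finset.prod_biUnion]
    intro k _ k' _ hk
    exact h.dis k k' hk
  have e3 : ∏ k, nN (D k) ≤ ∏ _k : I, M :=
    Finset.prod_le_prod (fun k _ => nN_nonneg _) fun k _ => hM k
  rw [Finset.prod_const, Finset.card_univ] at e3
  rw [e1]
  exact e3

private theorem pw (C Z B a δ : ℝ) (k : ℕ) (hC : 2 ≤ C) (hZ : 1 ≤ Z) (hB : 0 < B)
    (ha : 2 * (k : ℝ) * B + 1 ≤ a * δ) (n : ℝ) (hn : 0 ≤ n) (hn' : n ≤ (C * Z ^ 2) ^ k) :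
    n ^ B * (Z ^ a) ^ (-δ) ≤ (C ^ k) ^ B * Z⁻¹ := by
  have hZ0 : 0 < Z := by linarith
  have hC0 : 0 < C := by linarith
  have h1 : n ^ B ≤ ((C * Z ^ 2) ^ k) ^ B := Real.rpow_le_rpow hn hn' hB.le
  have h2 : ((C * Z ^ 2) ^ k) ^ B = (C ^ k) ^ B * Z ^ (2 * (k : ℝ) * B) := by
    rw [mul_pow, Real.mul_rpow (by positivity) (by positivity), ← pow_mul]
    congr 1
    rw [← Real.rpow_natCast, ← Real.rpow_mul hZ0.le]
    congr 1
    push_cast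
    ring
  have h3 : (Z ^ a) ^ (-δ) = Z ^ (-(a * δ)) := by
    rw [← Real.rpow_mul hZ0.le]
    congr 1
    ring
  have h4 : 0 ≤ (Z ^ a) ^ (-δ) := by positivity
  have h5 : Z ^ (2 * (k : ℝ) * B) * Z ^ (-(a * δ)) ≤ Z⁻¹ := by
    rw [← Real.rpow_add hZ0, ← Real.rpow_neg_one]
    exact Real.rpow_le_rpow_of_exponent_le hZ (by linarith)
  calc n ^ B * (Z ^ a) ^ (-δ) ≤ ((C * Z ^ 2) ^ k) ^ B * (Z ^ a) ^ (-δ) := mul_le_mul_of_nonneg_right h1 h4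
    _ = (C ^ k) ^ B * (Z ^ (2 * (k : ℝ) * B) * Z ^ (-(a * δ))) := by
        rw [h2, h3]
        ring
    _ ≤ (C ^ k) ^ B * Z⁻¹ := mul_le_mul_of_nonneg_left h5 (by positivity)

theorem one {m : ℕ} {ζ : K} {G : Type} [Group G] [Finite G] (T A : Subgroup G) (hTA : T ⊓ A = ⊥)
    (J : Type) [Fintype J] (x : J → G) (Q : DP K QBar) (S₀ S' : Finset (Pl K)) (I : Type) [Fintype I] (o : I → A)
    (C θ η c0 c1 c2 B C1 δ U0 a b Z1 : ℝ) (hC : 2 ≤ C) (hc0 : 0 < c0) (hc1 : 0 < c1) (hc2 : 0 < c2) (hB : 0 < B)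
    (hC1 : 0 < C1) (hδ : 0 < δ) (ha0 : 1 ≤ a) (ha : 2 * (Fintype.card I : ℝ) * B + 1 ≤ a * δ)
    (hfib : FibO m ζ T A x Q S₀ S' C 1 (b / a) c1 B C1 δ U0)
    (hbox : ∀ (V Φ : Type) [DecidableEq V] [Fintype Φ] (D : Dat V J Φ) (Z : ℝ),
        Z1 ≤ Z → Hyp C θ η 1 Z D → ∀ F : J → ℝ, (∀ j, Z ^ a ≤ F j) → (∀ j, F j ≤ Z ^ b) →
          c2 * (∑ φ, D.w φ) * ∏ j, F j ≤ ∑ φ, D.w φ * ∑ q ∈ D.BF C F, ∏ j, D.R φ j (q j)) :
    ∃ c Z2 : ℝ, 0 < c ∧ ∀ Z : ℝ, Z2 ≤ Z → ∀ X : I → ℝ, (∀ k, Z ≤ X k) → (∀ k, X k ≤ Z ^ 2) →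
      ∀ (ι : Type) (_ : Fintype ι) (φ : ι → Gal(QBar/K) →* A) (D : ι → I → Finset (Pl K)) (g : J → Vx S₀ → ℝ),
          Function.Injective φ → c0 * ∏ k, X k ≤ (Fintype.card ι : ℝ) →
          (∀ i, TyB Q m ζ S₀ S' o (D i) (φ i)) →
          (∀ i, ∀ k, X k < nN (D i k) ∧ nN (D i k) ≤ C * X k) →
          Hyp C θ η 1 Z (dat Q S₀ (fun j => stb A (x j)) φ (fun i => UI (D i)) g Z) →
        ∀ F : J → ℝ, (∀ j, Z ^ a ≤ F j) → (∀ j, F j ≤ Z ^ b) →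
          ∃ Rs : Finset (Gal(QBar/K) →* G), c * (∏ k, X k) * ∏ j, F j ≤ (Rs.card : ℝ) ∧
            ∀ θ ∈ Rs, (∀ v ∈ S', ∀ σ ∈ dec (K := K) (Q.P v), θ σ = 1) ∧
              ∃ (i : ι) (q : J → Finset (Vx S₀)), (∀ j, F j < ∏ v ∈ q j, (nm v.1 : ℝ)) ∧
                (∀ j, ∏ v ∈ q j, (nm v.1 : ℝ) ≤ C ^ 3 * F j) ∧
                (∀ j, ∀ v ∈ q j, v.1 ∉ UI (D i)) ∧ TyT Q m ζ S₀ T x (A.subtype.comp (φ i)) q θ := by
  have hC0 : 0 < C := by linarith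
  have ha1 : 0 < a := by linarith
  refine ⟨c0 * c1 * c2 / 2, max (max (max 1 U0) Z1) (2 * C1 * (C ^ (Fintype.card I)) ^ B / c2), by positivity, ?_⟩
  intro Z hZ X hX1 hX2 ι _ φ D g hinj hcard hty hnN hhyp F hF1 hF2
  have hZa : max (max 1 U0) Z1 ≤ Z := (le_max_left _ _).trans hZ
  have hZb : max 1 U0 ≤ Z := (le_max_left _ _).trans hZa
  have hZ1 : 1 ≤ Z := (le_max_left _ _).trans hZb
  have hZU : U0 ≤ Z := (le_max_right _ _).trans hZb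
  have hZZ : Z1 ≤ Z := (le_max_right _ _).trans hZa
  have hZc : 2 * C1 * (C ^ (Fintype.card I)) ^ B / c2 ≤ Z := (le_max_right _ _).trans hZ
  have hZ0 : 0 < Z := by linarith
  have hUge : U0 ≤ Z ^ a := hZU.trans (by
    calc Z = Z ^ (1 : ℝ) := (Real.rpow_one Z).symm
      _ ≤ Z ^ a := Real.rpow_le_rpow_of_exponent_le hZ1 ha0)
  have hF0 : ∀ j, 0 < F j := fun j => lt_of_lt_of_le (Real.rpow_pos_of_pos hZ0 a) (hF1 j)
  have hPF : 0 ≤ ∏ j, F j := Finset.prod_nonneg fun j _ => (hF0 j).le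
  have hFa : ∀ j, (Z ^ a) ^ (1 : ℝ) ≤ F j := fun j => by
    rw [Real.rpow_one]
    exact hF1 j
  have hFb : ∀ j, F j ≤ (Z ^ a) ^ (b / a) := fun j => by
    rw [← Real.rpow_mul hZ0.le, mul_div_cancel₀ b ha1.ne']
    exact hF2 j
  have hpt : ∀ i : ι, ∃ Θ : Finset (Gal(QBar/K) →* G),
      c1 * ((∑ q ∈ (dat Q S₀ (fun j => stb A (x j)) φ (fun i => UI (D i)) g Z).BF C F,
          ∏ j, (dat Q S₀ (fun j => stb A (x j)) φ (fun i => UI (D i)) g Z).R i j (q j))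
        - C1 * nN (UI (D i)) ^ B * (∏ j, F j) * (Z ^ a) ^ (-δ)) ≤ (Θ.card : ℝ) ∧
      ∀ θ ∈ Θ, (∀ v ∈ S', ∀ σ ∈ dec (K := K) (Q.P v), θ σ = 1) ∧
        ∃ q ∈ (dat Q S₀ (fun j => stb A (x j)) φ (fun i => UI (D i)) g Z).BF C F,
          (∀ j, ∀ v ∈ q j, v.1 ∉ UI (D i)) ∧ TyT Q m ζ S₀ T x (A.subtype.comp (φ i)) q θ := by
    intro i
    refine hfib (φ i) (hty i).ft (hty i).srj (hty i).dec (UI (D i)) ?_ ?_ g Z (Z ^ a) F hUge hFa hFb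
    · intro v hv
      obtain ⟨k, _, ho⟩ := Finset.mem_biUnion.1 hv
      exact (hty i).out k v ho
    · intro v hv hv' τ hτ
      refine (hty i).unr v hv (fun k ho => hv' ?_) τ hτ
      exact Finset.mem_biUnion.2 ⟨k, Finset.mem_univ k, ho⟩
  choose Θ hΘ1 hΘ2 using hpt
  have hbx := hbox (Vx S₀) ι (dat Q S₀ (fun j => stb A (x j)) φ (fun i => UI (D i)) g Z) Z hZZ hhyp F hF1 hF2
  have hw : ∑ i : ι, (dat Q S₀ (fun j => stb A (x j)) φ (fun i => UI (D i)) g Z).w i = (Fintype.card ι : ℝ) := by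
    have h1 : ∀ i : ι, (dat Q S₀ (fun j => stb A (x j)) φ (fun i => UI (D i)) g Z).w i = 1 := fun i => rfl
    rw [Finset.sum_congr rfl fun i _ => h1 i, Finset.sum_const, Finset.card_univ, nsmul_eq_mul, mul_one]
  have hw1 : ∑ i : ι, (dat Q S₀ (fun j => stb A (x j)) φ (fun i => UI (D i)) g Z).w i *
      ∑ q ∈ (dat Q S₀ (fun j => stb A (x j)) φ (fun i => UI (D i)) g Z).BF C F,
        ∏ j, (dat Q S₀ (fun j => stb A (x j)) φ (fun i => UI (D i)) g Z).R i j (q j) =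
      ∑ i : ι, ∑ q ∈ (dat Q S₀ (fun j => stb A (x j)) φ (fun i => UI (D i)) g Z).BF C F,
        ∏ j, (dat Q S₀ (fun j => stb A (x j)) φ (fun i => UI (D i)) g Z).R i j (q j) := by
    refine Finset.sum_congr rfl fun i _ => ?_
    have h1 : (dat Q S₀ (fun j => stb A (x j)) φ (fun i => UI (D i)) g Z).w i = 1 := rfl
    rw [h1, one_mul]
  rw [hw, hw1] at hbx
  have herr : ∀ i : ι, C1 * nN (UI (D i)) ^ B * (∏ j, F j) * (Z ^ a) ^ (-δ) ≤ c2 / 2 * ∏ j, F j := by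
    intro i
    have h1 : nN (UI (D i)) ≤ (C * Z ^ 2) ^ (Fintype.card I) := by
      refine nN_UI (hty i) _ fun k => ((hnN i k).2).trans ?_
      exact mul_le_mul_of_nonneg_left (hX2 k) hC0.le
    have h2 := pw C Z B a δ (Fintype.card I) hC hZ1 hB ha _ (nN_nonneg _) h1
    have h3 : C1 * ((C ^ (Fintype.card I)) ^ B * Z⁻¹) ≤ c2 / 2 := by
      rw [div_le_iff₀ hc2] at hZc
      rw [← mul_assoc, ← div_eq_mul_inv, div_le_iff₀ hZ0]
      linarith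
    calc C1 * nN (UI (D i)) ^ B * (∏ j, F j) * (Z ^ a) ^ (-δ)
        = C1 * (nN (UI (D i)) ^ B * (Z ^ a) ^ (-δ)) * ∏ j, F j := by ring
      _ ≤ C1 * ((C ^ (Fintype.card I)) ^ B * Z⁻¹) * ∏ j, F j := by gcongr
      _ ≤ c2 / 2 * ∏ j, F j := mul_le_mul_of_nonneg_right h3 hPF
  have hdis : ∀ i ∈ (Finset.univ : Finset ι), ∀ i' ∈ (Finset.univ : Finset ι), i ≠ i' → Disjoint (Θ i) (Θ i') := by
    intro i _ i' _ hii
    rw [Finset.disjoint_left]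
    intro θ h1 h2
    obtain ⟨-, q, -, -, hq⟩ := hΘ2 i θ h1
    obtain ⟨-, q', -, -, hq'⟩ := hΘ2 i' θ h2
    exact hii (hinj (tyT_phi Q hTA hq hq'))
  refine ⟨Finset.univ.biUnion Θ, ?_, ?_⟩
  · rw [Finset.card_biUnion hdis, Nat.cast_sum]
    have h1 : ∑ i : ι, c1 * ((∑ q ∈ (dat Q S₀ (fun j => stb A (x j)) φ (fun i => UI (D i)) g Z).BF C F,
          ∏ j, (dat Q S₀ (fun j => stb A (x j)) φ (fun i => UI (D i)) g Z).R i j (q j)) - c2 / 2 * ∏ j, F j) ≤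
        ∑ i : ι, ((Θ i).card : ℝ) := by
      refine Finset.sum_le_sum fun i _ => le_trans ?_ (hΘ1 i)
      refine mul_le_mul_of_nonneg_left ?_ hc1.le
      have h2 := herr i
      linarith
    refine le_trans ?_ h1
    rw [← Finset.mul_sum, Finset.sum_sub_distrib, Finset.sum_const, Finset.card_univ, nsmul_eq_mul]
    have h3 : c2 / 2 * (Fintype.card ι : ℝ) * ∏ j, F j ≤
        ∑ i : ι, ∑ q ∈ (dat Q S₀ (fun j => stb A (x j)) φ (fun i => UI (D i)) g Z).BF C F,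
          ∏ j, (dat Q S₀ (fun j => stb A (x j)) φ (fun i => UI (D i)) g Z).R i j (q j)
          - (Fintype.card ι : ℝ) * (c2 / 2 * ∏ j, F j) := by
      linarith
    have h4 : c0 * c1 * c2 / 2 * (∏ k, X k) * ∏ j, F j =
        c1 * (c2 / 2 * (c0 * ∏ k, X k) * ∏ j, F j) := by ring
    rw [h4]
    refine mul_le_mul_of_nonneg_left (le_trans ?_ h3) hc1.le
    refine mul_le_mul_of_nonneg_right ?_ hPF
    exact mul_le_mul_of_nonneg_left hcard (by positivity)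
  · intro θ hθ
    obtain ⟨i, _, hi⟩ := Finset.mem_biUnion.1 hθ
    obtain ⟨h1, q, hq, h2, h3⟩ := hΘ2 i θ hi
    unfold Dat.BF at hq
    rw [Finset.mem_filter, Fintype.mem_piFinset] at hq
    refine ⟨h1, i, q, fun j => hq.2.2 j, fun j => ?_, h2, h3⟩
    have h4 := hq.1 j
    unfold Dat.SQ Dat.SY at h4
    exact (Finset.mem_filter.1 h4).2

end H51.K2
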