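import Pool.Agent.H88.LB.Spec

/-!
# MP_b39724_nt, LowerBound: the class `MC` used in the statement

Everything in this file is a definition; nothing is proved here. `L` is a set of elements of a group (in the main theorem the
elements of least index of a transitive group; they have prime order). The class `MC` is defined by induction; it uses
`Projective` and the class `LC` of `Pool/Agent/H88/LB/Spec.lean`.
-/

noncomputable section

namespace H51.K2

open H88.LB

/-- `V = ker π` is good in `M` with respect to the set `L`, whose elements may have several orders: `π : M → M / V` is surjective,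
`V` is an abelian normal subgroup of `M` with a complement (the image of a section `s`) which contains a conjugate of every
element of `L`, and the order of `V` is prime to that of `M / C_M(V)`, or `V` is a minimal normal subgroup of `M` which is
projective over `𝔽_l[M / C_M(V)]`, `V` an `l`-group. -/
structure MStep {M Mb : Type} [Group M] [Group Mb] (L : Set M) (π : M →* Mb) : Prop where
  surjective : Function.Surjective π
  comm : IsMulCommutative π.ker
  split : ∃ s : Mb →* M, (∀ x, π (s x) = x) ∧ ∀ c ∈ L, ∃ g : M, g * c * g⁻¹ ∈ s.range
  kind : Nat.Coprime (Nat.card π.ker) (Nat.card (MulAut.conjNormal : M →* MulAut π.ker).range) ∨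
    (π.ker ≠ ⊥ ∧ (∀ U : Subgroup M, U.Normal → U ≤ π.ker → U = ⊥ ∨ U = π.ker) ∧
      (∃ l : ℕ, l.Prime ∧ ∀ x ∈ π.ker, x ^ l = 1) ∧ Projective π.ker)

/-- `N` is an abelian normal subgroup of `G` of squarefree exponent, with a complement `A`, of order prime to that of
`G / C_G(N)`; the derived group of the subgroup `T` generated by `L` is contained in `N`; the elements of `L` outside `N` have
order prime to that of `N`. -/
structure Two {G : Type} [Group G] (L : Set G) (N A : Subgroup G) [N.Normal] : Prop where
  comm : ∀ x ∈ N, ∀ y ∈ N, x * y = y * x
  exponent : ∃ m : ℕ, Squarefree m ∧ ∀ x ∈ N, x ^ m = 1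
  compl : Subgroup.IsComplement' N A
  coprime : Nat.Coprime (Nat.card N) (Nat.card (MulAut.conjNormal : G →* MulAut N).range)
  derived : ⁅Subgroup.closure L, Subgroup.closure L⁆ ≤ N
  type : ∀ x ∈ L, x ∈ N ∨ Nat.Coprime (orderOf x) (Nat.card N)

/-- The smallest class of pairs `(G, L)` (`L` a set of elements of the group `G`) such that:
(`two`) it contains `(G, L)` if `G` has a normal subgroup `N` as in `Two`;
(`loc`) it contains `(G, L)` if for some prime `p` all elements of `L` satisfy `x ^ p = 1` and `(G, L)` is in the class `LC p`;
(`step`) it contains `(G, L)` if it contains `(G / V, L mod V)` for some `V` which is good in `G` with respect to `L`. -/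
inductive MC : {G : Type} → [Group G] → Set G → Prop
  | two {G : Type} [Group G] (L : Set G) (N A : Subgroup G) [N.Normal] (h : Two L N A) : MC L
  | loc {G : Type} [Group G] (L : Set G) (p : ℕ) (hp : p.Prime) (hL : ∀ x ∈ L, x ^ p = 1) (h : LC p L) : MC L
  | step {G Gb : Type} [Group G] [Group Gb] (L : Set G) (π : G →* Gb) (hπ : MStep L π) (h : MC (π '' L)) : MC L

end H51.K2
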