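import Pool.Agent.H51.K2.Thm
import Pool.Agent.H51.AG.Fin
import Pool.Agent.H12.CF.Fin
import Pool.Agent.H71.KA.Sp2
import Pool.Agent.H51.K1.Fib

/-!
# [H51 K2 STG] staging file of `LowerBound` v4
-/

set_option autoImplicit false

noncomputable section

namespace H51.K2

open H38.ML.Spec H88.LB

theorem low_cfu (n : ℕ) (hn : 2 ≤ n) (G : Subgroup (Equiv.Perm (Fin n)))
    (hG : MulAction.IsPretransitive G (Fin n)) (hs : Group.IsSolvable (Subgroup.closure (Lst G)))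
    (hc : ∀ q : ℕ, q.Prime → q ∣ Nat.card (Subgroup.closure (Lst G)) → ¬ q ^ 3 ∣ Nat.card G) : Low G :=
  H12.CF.low_cf H51.SN.stpf (H71.KA.k2c Pool.Agent.H36.FR.fam2 H51.K1.fib) n hn G hG hs hc

theorem stg (n : ℕ) (hn : 2 ≤ n) (G : Subgroup (Equiv.Perm (Fin n)))
    (hG : MulAction.IsPretransitive G (Fin n)) :
    (Group.IsSolvable (Subgroup.closure (Lst G)) →
      (∀ q : ℕ, q.Prime → q ∣ Nat.card (Subgroup.closure (Lst G)) → ¬ q ^ 3 ∣ Nat.card G) → Low G) ∧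
    ((∃ j : ℕ, Subgroup.closure (Lst G) ≤ Subgroup.upperCentralSeries G j) → Low G) ∧
    (MC (Lst G) → Low G) ∧
    (∀ p : ℕ, p.Prime → (∀ h ∈ Lst G, h ^ p = 1) →
      Group.IsSolvable (Subgroup.closure (Lst G)) →
      (∀ Q : Subgroup G, Q ≤ Subgroup.closure (Lst G) → IsPGroup p Q → IsMulCommutative Q) →
      (∀ q : ℕ, q.Prime →
        q ∣ Nat.card (⁅Subgroup.closure (Lst G), Subgroup.closure (Lst G)⁆ : Subgroup G) →
        ∀ Q : Subgroup G, IsPGroup q Q → IsMulCommutative Q) → Low G) ∧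
    (∀ (m k : ℕ) (_ : 2 ≤ m) (_ : 0 < k) (e : Fin m × Fin k ≃ Fin n)
      (G₁ : Subgroup (Equiv.Perm (Fin m))) (_ : MulAction.IsPretransitive G₁ (Fin m))
      (H : Subgroup (Equiv.Perm (Fin k))) (_ : MulAction.IsPretransitive H (Fin k))
      (_ : IsWreath e G₁ H G)
      (_ : (∃ j : ℕ, Subgroup.closure (Lst G₁) ≤ Subgroup.upperCentralSeries G₁ j) ∨
        ∃ p : ℕ, p.Prime ∧ (∀ h ∈ Lst G₁, h ^ p = 1) ∧
          SC p (Subgroup.closure (Lst G₁)) (Lst G₁)), Low G) ∧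
    ((∃ j : ℕ, Subgroup.closure (Lst G) ⊓ (⊤ : Subgroup G).lowerCentralSeries j = ⊥) →
      ∃ m : ℕ, 0 < m ∧ ∀ K : IntermediateField ℚ (AlgebraicClosure ℚ), ∀ _ : NumberField K,
        (∃ z : K, IsPrimitiveRoot z m) → IsGaloisGroup K (AlgebraicClosure ℚ) G → LowK K G) :=
  ⟨low_cfu n hn G hG, (lowf n hn G hG).2.2.1, low_mc n hn G hG,
    fun p hp hL hsol hP hQ => H51.AG.low_ag n hn G hG p hp hL hsol hP hQ,
    (lowf n hn G hG).2.1, (lowf n hn G hG).2.2.2.1⟩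

end H51.K2
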