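import Pool.Agent.H51.K2.B1
import Pool.Agent.H71.KA.Lf1
import Pool.Agent.H71.KA.Zas

/-!
# [H51 K2 SUP] the step for an abelian normal subgroup `V` with coprime action and a supplement `M`

`G = V M`, `V` abelian and normal, `#V` prime to the order of the group of automorphisms of `V` induced by `G`. A homomorphism `φ : Γ → M` and
a cocycle `κ : Γ → V` over `φ mod V` give the homomorphism `κ φ : Γ → G`. `lf1_step` for `V ^ r ⋊ (G / V)` gives `r` cocycles
`κ_1, .., κ_r` for every homomorphism to `G / V`; for more cocycles than subgroups of `V` one of the `κ_i φ` is surjective.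
* `base1_sup`: `BASE1` for `M` gives `BASE1` for `G`. `conj_sup`: elements of prime order of `M` which are conjugate in `G` are conjugate in `M`.
-/

set_option autoImplicit false

open scoped NumberField
open IsDedekindDomain H38.ML
open scoped Classical

noncomputable section

namespace H51.K2

open H63.MA H38.BB H38.BG H77.PC3 H88.LH H35.SN H71.KA H77.GN H77.AB

section grp

variable {G : Type} [Group G]

/-- the action of `G / V` on the commutative normal subgroup `V` -/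
def sac (V : Subgroup G) [V.Normal] (hcom : ∀ x ∈ V, ∀ y ∈ V, x * y = y * x) : G ⧸ V →* MulAut V :=
  QuotientGroup.lift V (MulAut.conjNormal : G →* MulAut V) (by
    intro x hx
    refine MulEquiv.ext fun y => Subtype.ext ?_
    rw [MulAut.conjNormal_apply, MulAut.one_apply, hcom x hx y y.2, mul_inv_cancel_right])

theorem sac_mk (V : Subgroup G) [V.Normal] (hcom : ∀ x ∈ V, ∀ y ∈ V, x * y = y * x) (g : G) (y : V) :
    ((sac V hcom (g : G ⧸ V) y : V) : G) = g * y * g⁻¹ := by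
  show (((MulAut.conjNormal : G →* MulAut V) g y : V) : G) = _
  rw [MulAut.conjNormal_apply]

theorem sac_range (V : Subgroup G) [V.Normal] (hcom : ∀ x ∈ V, ∀ y ∈ V, x * y = y * x) :
    (sac V hcom).range = (MulAut.conjNormal : G →* MulAut V).range := by
  ext a
  constructor
  · rintro ⟨h, rfl⟩
    obtain ⟨g, rfl⟩ := QuotientGroup.mk_surjective h
    exact ⟨g, rfl⟩
  · rintro ⟨g, rfl⟩
    exact ⟨(g : G ⧸ V), rfl⟩

/-- the diagonal action on `V ^ r` -/
def sar (V : Subgroup G) [V.Normal] (hcom : ∀ x ∈ V, ∀ y ∈ V, x * y = y * x) (r : ℕ) :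
    G ⧸ V →* MulAut (Fin r → V) where
  toFun g := MulEquiv.piCongrRight fun _ => sac V hcom g
  map_one' := by
    refine MulEquiv.ext fun f => funext fun i => ?_
    show sac V hcom 1 (f i) = f i
    rw [map_one, MulAut.one_apply]
  map_mul' g h := by
    refine MulEquiv.ext fun f => funext fun i => ?_
    show sac V hcom (g * h) (f i) = sac V hcom g (sac V hcom h (f i))
    rw [map_mul, MulAut.mul_apply]

theorem sar_apply (V : Subgroup G) [V.Normal] (hcom : ∀ x ∈ V, ∀ y ∈ V, x * y = y * x) (r : ℕ)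
    (g : G ⧸ V) (f : Fin r → V) (i : Fin r) : sar V hcom r g f i = sac V hcom g (f i) := rfl

/-- `V ^ r ⋊ (G / V)` -/
abbrev SE (V : Subgroup G) [V.Normal] (hcom : ∀ x ∈ V, ∀ y ∈ V, x * y = y * x) (r : ℕ) : Type :=
  (Fin r → V) ⋊[sar V hcom r] (G ⧸ V)

/-- elements of prime order of `M` which are conjugate in `G = V M` are conjugate in `M` -/
theorem conj_sup [Finite G] (V M : Subgroup G) [V.Normal] (hcom : ∀ x ∈ V, ∀ y ∈ V, x * y = y * x)
    (hact : Nat.Coprime (Nat.card V) (Nat.card (MulAut.conjNormal : G →* MulAut V).range))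
    (hVM : ∀ g : G, ∃ v ∈ V, ∃ m ∈ M, g = v * m) {x y : M} (hx : (orderOf x).Prime)
    (h : IsConj (x : G) (y : G)) : IsConj x y := by
  obtain ⟨g, hg⟩ := isConj_iff.1 h
  obtain ⟨v, hv, m, hm, rfl⟩ := hVM g
  -- `x' = m x m⁻¹`
  obtain ⟨x', hx'⟩ : ∃ x' : M, x' = ⟨m, hm⟩ * x * ⟨m, hm⟩⁻¹ := ⟨_, rfl⟩
  have hxx : IsConj x x' := isConj_iff.2 ⟨⟨m, hm⟩, hx'.symm⟩
  have hx'G : (x' : G) = m * x * m⁻¹ := by rw [hx']; rfl
  have hy : (y : G) = v * x' * v⁻¹ := by
    rw [hx'G, ← hg]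
    group
  refine hxx.trans ?_
  have ho : orderOf x' = orderOf x := by
    have h1 : x' = MulAut.conj (⟨m, hm⟩ : M) x := hx'
    rw [h1, MulEquiv.orderOf_eq]
  obtain ⟨q, hq⟩ : ∃ q, q = orderOf x := ⟨_, rfl⟩
  rw [← hq] at hx ho
  have hoG : orderOf (x' : G) = q := by rw [Subgroup.orderOf_coe, ho]
  by_cases hqV : q ∣ Nat.card V
  · -- `x'` centralises `V`
    have h1 : (MulAut.conjNormal : G →* MulAut V) (x' : G) = 1 := by
      have h2 : orderOf ((MulAut.conjNormal : G →* MulAut V).rangeRestrict (x' : G)) ∣ q := by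
        rw [← hoG]
        exact orderOf_map_dvd _ _
      have h3 : orderOf ((MulAut.conjNormal : G →* MulAut V).rangeRestrict (x' : G)) ∣
          Nat.card (MulAut.conjNormal : G →* MulAut V).range := orderOf_dvd_natCard _
      have h4 : orderOf ((MulAut.conjNormal : G →* MulAut V).rangeRestrict (x' : G)) = 1 :=
        Nat.eq_one_of_dvd_coprimes hact (h2.trans hqV) h3
      rw [orderOf_eq_one_iff] at h4
      exact congrArg Subtype.val h4
    have h2 : (x' : G) * v * (x' : G)⁻¹ = v := by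
      have h3 := congrArg (fun f : MulAut V => ((f ⟨v, hv⟩ : V) : G)) h1
      simp only [MulAut.one_apply] at h3
      rw [MulAut.conjNormal_apply] at h3
      exact h3
    have h3 : (x' : G) * v = v * x' := mul_inv_eq_iff_eq_mul.1 h2
    have h4 : (y : G) = x' := by
      rw [hy, ← h3, mul_inv_cancel_right]
    rw [Subtype.ext h4]
  · -- coprime: `zas` in `M`
    have hqp : Nat.Coprime q (Nat.card V) := (Nat.Prime.coprime_iff_not_dvd hx).2 hqV
    obtain ⟨W, hW⟩ : ∃ W : Subgroup M, W = V.subgroupOf M := ⟨_, rfl⟩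
    have hWV : ∀ z : M, z ∈ W ↔ (z : G) ∈ V := fun z => by rw [hW, Subgroup.mem_subgroupOf]
    have hcW : Nat.Coprime q (Nat.card W) := by
      refine Nat.Coprime.coprime_dvd_right ?_ hqp
      have h1 : Nat.card W = Nat.card (W.map M.subtype) :=
        (Subgroup.card_map_of_injective M.subtype_injective).symm
      rw [h1]
      refine Subgroup.card_dvd_of_le ?_
      rintro _ ⟨z, hz, rfl⟩
      exact (hWV z).1 hz
    have ht : y * x'⁻¹ ∈ W := by
      rw [hWV]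
      show (y : G) * (x' : G)⁻¹ ∈ V
      have h1 : (y : G) * (x' : G)⁻¹ = v * ((x' : G) * v⁻¹ * (x' : G)⁻¹) := by
        rw [hy]
        group
      rw [h1]
      exact V.mul_mem hv ((inferInstance : V.Normal).conj_mem _ (V.inv_mem hv) _)
    have hxq : x' ^ q = 1 := by rw [← ho]; exact pow_orderOf_eq_one x'
    have hyq : y ^ q = 1 := by
      apply Subtype.ext
      show (y : G) ^ q = 1
      have h1 : (x' : G) ^ q = 1 := congrArg Subtype.val hxq
      rw [hy, conj_pow, h1, mul_one, mul_inv_cancel]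
    obtain ⟨s, hs, he⟩ := zas W (fun a ha b hb => Subtype.ext (hcom _ ((hWV a).1 ha) _ ((hWV b).1 hb)))
      (a := x') (t := y * x'⁻¹) (fun z hz => (hWV _).2 ((inferInstance : V.Normal).conj_mem _ ((hWV z).1 hz) _))
      ht (q := q) (by rw [inv_mul_cancel_right]; exact hyq) hxq hcW
    rw [inv_mul_cancel_right] at he
    exact isConj_iff.2 ⟨s, he.symm⟩

end grp

theorem se_ker {G : Type} [Group G] (V : Subgroup G) [V.Normal] (hcom : ∀ x ∈ V, ∀ y ∈ V, x * y = y * x) (r : ℕ)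
    {x : SE V hcom r} (hx : (SemidirectProduct.rightHom : SE V hcom r →* G ⧸ V) x = 1) :
    x = SemidirectProduct.inl x.left := by
  refine SemidirectProduct.ext rfl ?_
  rw [SemidirectProduct.right_inl]
  exact hx

/-- `LF1` for `V ^ r ⋊ (G / V)` -/
theorem lf1_se {G : Type} [Group G] [Finite G] (V : Subgroup G) [V.Normal]
    (hcom : ∀ x ∈ V, ∀ y ∈ V, x * y = y * x)
    (hact : Nat.Coprime (Nat.card V) (Nat.card (MulAut.conjNormal : G →* MulAut V).range)) (r : ℕ) :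
    LF1 (SemidirectProduct.rightHom : SE V hcom r →* G ⧸ V) SemidirectProduct.inr := by
  have hfin : Finite (SE V hcom r) := Finite.of_equiv ((Fin r → V) × (G ⧸ V)) SemidirectProduct.equivProd.symm
  refine lf1_step _ SemidirectProduct.rightHom_surjective (fun a b ha hb => ?_) _
    (fun h => SemidirectProduct.rightHom_inr h) (sac V hcom).ker (fun z hz a ha => ?_) ?_
  · rw [se_ker V hcom r ha, se_ker V hcom r hb, ← map_mul, ← map_mul]
    refine congrArg _ (funext fun i => ?_)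
    exact Subtype.ext (hcom _ (a.left i).2 _ (b.left i).2)
  · have h1 : sar V hcom r z = 1 := by
      refine MulEquiv.ext fun f => funext fun i => ?_
      rw [sar_apply, (hz : sac V hcom z = 1), MulAut.one_apply, MulAut.one_apply]
    rw [se_ker V hcom r ha]
    refine SemidirectProduct.ext ?_ ?_
    · simp [h1]
    · simp
  · rw [Subgroup.index_ker, sac_range]
    have h1 : Nat.card (SemidirectProduct.rightHom : SE V hcom r →* G ⧸ V).ker = Nat.card V ^ r := by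
      rw [← SemidirectProduct.range_inl_eq_ker_rightHom]
      rw [show Nat.card (SemidirectProduct.inl : (Fin r → V) →* SE V hcom r).range = Nat.card (Fin r → V) from
        (Nat.card_congr (MonoidHom.ofInjective SemidirectProduct.inl_injective).toEquiv).symm]
      rw [Nat.card_pi, Finset.prod_const, Finset.card_univ, Fintype.card_fin]
    rw [h1]
    exact (Nat.Coprime.pow_left r hact).symm

/-- the homomorphism `κ_i φ` -/
def smu {K : IntermediateField ℚ QBar} {G : Type} [Group G] (V M : Subgroup G) [V.Normal]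
    (hcom : ∀ x ∈ V, ∀ y ∈ V, x * y = y * x) (r : ℕ) (φ : Gal(QBar/K) →* M) (ψ : Gal(QBar/K) →* SE V hcom r)
    (h : ∀ σ, (SemidirectProduct.rightHom : SE V hcom r →* G ⧸ V) (ψ σ) = ((φ σ : G) : G ⧸ V)) (i : Fin r) :
    Gal(QBar/K) →* G where
  toFun σ := ((ψ σ).left i : G) * φ σ
  map_one' := by
    rw [map_one, map_one, SemidirectProduct.one_left]
    show ((1 : V) : G) * ((1 : M) : G) = 1
    rw [Subgroup.coe_one, Subgroup.coe_one, mul_one]
  map_mul' σ τ := by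
    rw [map_mul, map_mul, SemidirectProduct.mul_left]
    have h1 : (ψ σ).right = ((φ σ : G) : G ⧸ V) := h σ
    rw [h1]
    show (((ψ σ).left i * sar V hcom r ((φ σ : G) : G ⧸ V) (ψ τ).left i : V) : G) * ((φ σ * φ τ : M) : G) = _
    rw [sar_apply, Subgroup.coe_mul, sac_mk, Subgroup.coe_mul]
    group

theorem bh_sup {K : IntermediateField ℚ QBar} [NumberField K] {G : Type} [Group G] [Finite G] (V M : Subgroup G)
    [V.Normal] (hcom : ∀ x ∈ V, ∀ y ∈ V, x * y = y * x) (hVM : ∀ g : G, ∃ v ∈ V, ∃ m ∈ M, g = v * m)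
    {C : Set G} (hcc : ∀ x ∈ C, ∀ g : G, g * x * g⁻¹ ∈ C) {N : ℕ} {Q : DP K QBar} {S₀ S' : Finset (Pl K)} {c Y : ℝ}
    {r : ℕ} (hr : Nat.card (Subgroup G) < r)
    (hl : ∀ φb : Gal(QBar/K) →* G ⧸ V, Function.Surjective φb → FT φb →
      (∀ v ∈ S', ∀ σ ∈ dec (K := K) (Q.P v), φb σ = 1) →
      ∃ ψ : Gal(QBar/K) →* SE V hcom r, FT ψ ∧ Function.Surjective ψ ∧
        (∀ σ, (SemidirectProduct.rightHom : SE V hcom r →* G ⧸ V) (ψ σ) = φb σ) ∧
        (∀ v ∈ S', ∀ σ ∈ dec (K := K) (Q.P v), ψ σ = 1) ∧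
        ∀ v, v ∉ S₀ → ∃ m ∈ (SemidirectProduct.rightHom : SE V hcom r →* G ⧸ V).ker,
          ∀ τ ∈ (Q.P v).inertia Gal(QBar/K), ψ τ = m * SemidirectProduct.inr (φb τ) * m⁻¹)
    (h : Bh {x : M | (x : G) ∈ C} N Q S₀ S' c Y) : Bh C N Q S₀ S' (c / r) Y := by
  have hr0 : 0 < r := lt_of_le_of_lt (Nat.zero_le _) hr
  obtain ⟨Rs, hRs, h8⟩ := h
  obtain ⟨q, hq⟩ : ∃ q : M →* G ⧸ V, q = (QuotientGroup.mk' V).comp M.subtype := ⟨_, rfl⟩
  have hqa : ∀ x : M, q x = ((x : G) : G ⧸ V) := fun x => by rw [hq]; rfl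
  have hqs : Function.Surjective q := by
    intro y
    obtain ⟨g, rfl⟩ := QuotientGroup.mk_surjective y
    obtain ⟨v, hv, m, hm, rfl⟩ := hVM g
    refine ⟨⟨m, hm⟩, ?_⟩
    rw [hqa]
    show (m : G ⧸ V) = ((v * m : G) : G ⧸ V)
    rw [QuotientGroup.mk_mul, (QuotientGroup.eq_one_iff v).2 hv, one_mul]
  -- the lift of a homomorphism to `G / V`
  have hex : ∀ φb : Gal(QBar/K) →* G ⧸ V, ∃ ψ : Gal(QBar/K) →* SE V hcom r,
      (Function.Surjective φb → FT φb → (∀ v ∈ S', ∀ σ ∈ dec (K := K) (Q.P v), φb σ = 1) →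
        FT ψ ∧ Function.Surjective ψ ∧
        (∀ σ, (SemidirectProduct.rightHom : SE V hcom r →* G ⧸ V) (ψ σ) = φb σ) ∧
        (∀ v ∈ S', ∀ σ ∈ dec (K := K) (Q.P v), ψ σ = 1) ∧
        ∀ v, v ∉ S₀ → ∃ m ∈ (SemidirectProduct.rightHom : SE V hcom r →* G ⧸ V).ker,
          ∀ τ ∈ (Q.P v).inertia Gal(QBar/K), ψ τ = m * SemidirectProduct.inr (φb τ) * m⁻¹) := by
    intro φb
    by_cases h1 : Function.Surjective φb ∧ FT φb ∧ (∀ v ∈ S', ∀ σ ∈ dec (K := K) (Q.P v), φb σ = 1)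
    · obtain ⟨ψ, h2⟩ := hl φb h1.1 h1.2.1 h1.2.2
      exact ⟨ψ, fun _ _ _ => h2⟩
    · exact ⟨1, fun a b d => absurd ⟨a, b, d⟩ h1⟩
  choose lf hlf using hex
  have hprop : ∀ φ ∈ Rs, FT (lf (q.comp φ)) ∧ Function.Surjective (lf (q.comp φ)) ∧
      (∀ σ, (SemidirectProduct.rightHom : SE V hcom r →* G ⧸ V) (lf (q.comp φ) σ) = q (φ σ)) ∧
      (∀ v ∈ S', ∀ σ ∈ dec (K := K) (Q.P v), lf (q.comp φ) σ = 1) ∧
      ∀ v, v ∉ S₀ → ∃ m ∈ (SemidirectProduct.rightHom : SE V hcom r →* G ⧸ V).ker,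
        ∀ τ ∈ (Q.P v).inertia Gal(QBar/K), lf (q.comp φ) τ = m * SemidirectProduct.inr (q (φ τ)) * m⁻¹ := by
    intro φ hφ
    obtain ⟨⟨E, hE, hE2⟩, g2, g3, -⟩ := h8 φ hφ
    refine hlf (q.comp φ) (hqs.comp g2) ⟨E, hE, fun σ hσ => ?_⟩ fun v hv σ hσ => ?_
    · show q (φ σ) = 1
      rw [show φ σ = 1 from hE2 hσ, map_one]
    · show q (φ σ) = 1
      rw [g3 v hv σ hσ, map_one]
  -- the homomorphisms `κ_i φ`
  have hth : ∀ φ : Gal(QBar/K) →* M, ∃ θ : Fin r → Gal(QBar/K) →* G, φ ∈ Rs →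
      ∀ i σ, θ i σ = ((lf (q.comp φ) σ).left i : G) * φ σ := by
    intro φ
    by_cases hφ : φ ∈ Rs
    · obtain ⟨-, -, h1, -⟩ := hprop φ hφ
      exact ⟨fun i => smu V M hcom r φ (lf (q.comp φ)) (fun σ => (h1 σ).trans (hqa _)) i, fun _ i σ => rfl⟩
    · exact ⟨fun _ => 1, fun h => absurd h hφ⟩
  choose th hth using hth
  have hmod : ∀ φ ∈ Rs, ∀ i σ, ((th φ i σ : G) : G ⧸ V) = q (φ σ) := by
    intro φ hφ i σ
    rw [hth φ hφ i σ, QuotientGroup.mk_mul, (QuotientGroup.eq_one_iff _).2 ((lf (q.comp φ) σ).left i).2, one_mul, hqa]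
  -- one of them is surjective
  have hsur : ∀ φ ∈ Rs, ∃ i, Function.Surjective (th φ i) := by
    intro φ hφ
    by_contra hno
    push Not at hno
    obtain ⟨-, s1, s2, -⟩ := hprop φ hφ
    obtain ⟨X, hX⟩ : ∃ X : Fin r → Subgroup G, ∀ i, X i = (((QuotientGroup.mk' V).comp (th φ i)).ker).map (th φ i) :=
      ⟨_, fun i => rfl⟩
    have hkr : ∀ i σ, σ ∈ ((QuotientGroup.mk' V).comp (th φ i)).ker ↔ q (φ σ) = 1 := by
      intro i σ
      rw [MonoidHom.mem_ker, ← hmod φ hφ i σ]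
      rfl
    have hpr : ∀ i, ∃ v ∈ V, v ∉ X i := by
      intro i
      by_contra h1
      push Not at h1
      refine hno i fun g => ?_
      obtain ⟨σ, hσ⟩ := (hqs.comp (h8 φ hφ).2.1) (g : G ⧸ V)
      have h2 : ((th φ i σ : G) : G ⧸ V) = (g : G ⧸ V) := (hmod φ hφ i σ).trans hσ
      have h3 : (th φ i σ)⁻¹ * g ∈ V := QuotientGroup.eq.1 h2
      have h4 := h1 _ h3
      rw [hX i] at h4
      obtain ⟨τ, -, hτ⟩ := h4
      refine ⟨σ * τ, ?_⟩
      rw [map_mul, hτ, mul_inv_cancel_left]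
    have hinj : Function.Injective X := by
      intro i j hij
      by_contra hne
      obtain ⟨v, hv, hv2⟩ := hpr i
      obtain ⟨σ, hσ⟩ := s1 (SemidirectProduct.inl (Function.update 1 i ⟨v, hv⟩))
      have h1 : q (φ σ) = 1 := by
        rw [← s2 σ, hσ]
        exact SemidirectProduct.rightHom_inl _
      have h2 : th φ i σ ∈ X i := by
        rw [hX i]
        exact ⟨σ, (hkr i σ).2 h1, rfl⟩
      have h3 : th φ j σ ∈ X i := by
        rw [hij, hX j]
        exact ⟨σ, (hkr j σ).2 h1, rfl⟩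
      rw [hth φ hφ i σ, hσ, SemidirectProduct.left_inl, Function.update_self] at h2
      rw [hth φ hφ j σ, hσ, SemidirectProduct.left_inl, Function.update_of_ne (Ne.symm hne)] at h3
      apply hv2
      have h4 := (X i).mul_mem h2 ((X i).inv_mem h3)
      have h5 : v * (φ σ : G) * ((((1 : Fin r → V) j : V) : G) * (φ σ : G))⁻¹ = v := by
        show v * (φ σ : G) * (((1 : V) : G) * (φ σ : G))⁻¹ = v
        rw [Subgroup.coe_one, one_mul, mul_inv_cancel_right]
      rwa [h5] at h4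
    have h1 := Nat.card_le_card_of_injective X hinj
    rw [Nat.card_fin] at h1
    omega
  have hne : Nonempty (Fin r) := ⟨⟨0, hr0⟩⟩
  choose! ix hix using hsur
  -- the most frequent index
  obtain ⟨i, hi⟩ : ∃ i : Fin r, (Rs.card : ℝ) / r ≤ ((Rs.filter fun φ => ix φ = i).card : ℝ) := by
    by_contra h1
    push Not at h1
    have h2 : (Rs.card : ℝ) = ∑ i : Fin r, ((Rs.filter fun φ => ix φ = i).card : ℝ) := by
      rw [Finset.card_eq_sum_card_fiberwise (f := ix) (t := Finset.univ) (fun _ _ => Finset.mem_coe.2 (Finset.mem_univ _))]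
      push_cast
      rfl
    have h3 : ∑ i : Fin r, ((Rs.filter fun φ => ix φ = i).card : ℝ) < ∑ _i : Fin r, (Rs.card : ℝ) / r :=
      Finset.sum_lt_sum_of_nonempty Finset.univ_nonempty fun i _ => h1 i
    rw [← h2, Finset.sum_const, Finset.card_univ, Fintype.card_fin, nsmul_eq_mul, mul_div_cancel₀] at h3
    · exact lt_irrefl _ h3
    · exact_mod_cast hr0.ne'
  obtain ⟨R, hR⟩ : ∃ R : Finset (Gal(QBar/K) →* M), R = Rs.filter fun φ => ix φ = i := ⟨_, rfl⟩
  rw [← hR] at hi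
  have hRm : ∀ φ ∈ R, φ ∈ Rs ∧ Function.Surjective (th φ i) := by
    intro φ hφ
    rw [hR, Finset.mem_filter] at hφ
    refine ⟨hφ.1, ?_⟩
    have h1 := hix φ hφ.1
    rwa [hφ.2] at h1
  have hinj : Set.InjOn (fun φ => th φ i) (R : Set (Gal(QBar/K) →* M)) := by
    intro φ h1 φ' h2 he
    have h1' := (hRm φ h1).1
    have h2' := (hRm φ' h2).1
    have he' : th φ i = th φ' i := he
    have hq' : q.comp φ = q.comp φ' := by
      refine MonoidHom.ext fun σ => ?_
      show q (φ σ) = q (φ' σ)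
      rw [← hmod φ h1' i σ, ← hmod φ' h2' i σ, he']
    refine MonoidHom.ext fun σ => Subtype.ext ?_
    have h3 := hth φ h1' i σ
    have h4 := hth φ' h2' i σ
    rw [he', h4, hq'] at h3
    exact (mul_left_cancel h3).symm
  refine ⟨R.image fun φ => th φ i, ?_, ?_⟩
  · rw [Finset.card_image_of_injOn hinj]
    refine le_trans ?_ hi
    have h1 : c / r * Y * Real.log Y ^ (N - 1) = c * Y * Real.log Y ^ (N - 1) / r := by ring
    rw [h1]
    exact div_le_div_of_nonneg_right hRs (Nat.cast_nonneg r)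
  intro θ hθ
  obtain ⟨φ, hφ, rfl⟩ := Finset.mem_image.1 hθ
  obtain ⟨hφ1, hφ2⟩ := hRm φ hφ
  obtain ⟨⟨E₁, hE₁, hE₁'⟩, -, p3, p4, p5⟩ := hprop φ hφ1
  obtain ⟨⟨E₂, hE₂, hE₂'⟩, g2, g3, T, k, t1, t2, t3, t4⟩ := h8 φ hφ1
  have hin : ∀ v, v ∉ S₀ → ∃ a ∈ V, ∀ τ ∈ (Q.P v).inertia Gal(QBar/K), th φ i τ = a * φ τ * a⁻¹ := by
    intro v hv
    obtain ⟨m, hm, h9⟩ := p5 v hv
    refine ⟨m.left i, (m.left i).2, fun τ hτ => ?_⟩
    rw [hth φ hφ1 i τ, h9 τ hτ, se_ker V hcom r hm]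
    have h1 : (SemidirectProduct.inl m.left * SemidirectProduct.inr (q (φ τ)) * (SemidirectProduct.inl m.left)⁻¹ :
        SE V hcom r).left = m.left * sar V hcom r (q (φ τ)) (m.left)⁻¹ := by
      rw [← map_inv, SemidirectProduct.mul_left, SemidirectProduct.mul_left, SemidirectProduct.mul_right,
        SemidirectProduct.left_inl, SemidirectProduct.right_inl, SemidirectProduct.left_inr, SemidirectProduct.right_inr,
        SemidirectProduct.left_inl, one_mul, map_one, mul_one]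
    rw [h1]
    show ((m.left i * sar V hcom r (q (φ τ)) (m.left)⁻¹ i : V) : G) * φ τ = _
    rw [sar_apply, hqa, Subgroup.coe_mul, sac_mk]
    show (m.left i : G) * ((φ τ : G) * (((m.left i)⁻¹ : V) : G) * (φ τ : G)⁻¹) * φ τ = _
    rw [Subgroup.coe_inv, SemidirectProduct.left_inl]
    group
  refine ⟨⟨E₁ ⊔ E₂, IntermediateField.finiteDimensional_sup E₁ E₂, fun σ hσ => ?_⟩, hφ2, fun v hv σ hσ => ?_,
    T, k, t1, t2, fun v hv => ?_, fun v hv hv2 τ hτ => ?_⟩
  · show th φ i σ = 1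
    have h1 : lf (q.comp φ) σ = 1 := hE₁' (IntermediateField.fixingSubgroup_antitone le_sup_left hσ)
    have h2 : φ σ = 1 := hE₂' (IntermediateField.fixingSubgroup_antitone le_sup_right hσ)
    rw [hth φ hφ1 i σ, h1, h2]
    show (((1 : V) : G)) * ((1 : M) : G) = 1
    rw [Subgroup.coe_one, Subgroup.coe_one, mul_one]
  · rw [hth φ hφ1 i σ, p4 v hv σ hσ, g3 v hv σ hσ]
    show (((1 : V) : G)) * ((1 : M) : G) = 1
    rw [Subgroup.coe_one, Subgroup.coe_one, mul_one]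
  · obtain ⟨x, hx, hx2⟩ := t3 v hv
    obtain ⟨a, ha, h9⟩ := hin v (t1 v hv)
    refine ⟨a * x * a⁻¹, ?_, fun τ hτ => ?_⟩
    · refine pk_map (f := (MulAut.conj a).toMonoidHom.comp M.subtype) ?_ hx
      intro y hy
      exact hcc _ hy a
    · obtain ⟨j, hj⟩ := Subgroup.mem_zpowers_iff.1 (hx2 τ hτ)
      rw [h9 τ hτ, ← hj, Subgroup.coe_zpow]
      exact ⟨j, conj_zpow⟩
  · obtain ⟨a, ha, h9⟩ := hin v hv
    rw [h9 τ hτ, t4 v hv hv2 τ hτ, Subgroup.coe_one, mul_one, mul_inv_cancel]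

theorem base1_sup {G : Type} [Group G] [Finite G] (C : Set G) (hcc : ∀ x ∈ C, ∀ g : G, g * x * g⁻¹ ∈ C)
    (V M : Subgroup G) [V.Normal] (hcom : ∀ x ∈ V, ∀ y ∈ V, x * y = y * x)
    (hact : Nat.Coprime (Nat.card V) (Nat.card (MulAut.conjNormal : G →* MulAut V).range))
    (hVM : ∀ g : G, ∃ v ∈ V, ∃ m ∈ M, g = v * m) {N : ℕ} (h : BASE1 {x : M | (x : G) ∈ C} N) : BASE1 C N := by
  intro t
  obtain ⟨r, hr⟩ : ∃ r : ℕ, Nat.card (Subgroup G) < r := ⟨_, Nat.lt_succ_self _⟩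
  have hfin : Finite (SE V hcom r) := Finite.of_equiv ((Fin r → V) × (G ⧸ V)) SemidirectProduct.equivProd.symm
  have hl0 : 0 < Nat.card (SemidirectProduct.rightHom : SE V hcom r →* G ⧸ V).ker := Nat.card_pos
  obtain ⟨K₁, hK₁, h⟩ := h t
  obtain ⟨K₂, hK₂, h2⟩ := lf1_se V hcom hact r t
  have hK₁' : FiniteDimensional ℚ K₁ := hK₁.to_finiteDimensional
  have hK₂' : FiniteDimensional ℚ K₂ := hK₂.to_finiteDimensional
  have hfd' : FiniteDimensional ℚ ↥(K₁ ⊔ K₂) := IntermediateField.finiteDimensional_sup K₁ K₂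
  refine ⟨K₁ ⊔ K₂, NumberField.of_module_finite ℚ _, fun K hK hle S₁ => ?_⟩
  obtain ⟨Sl, hSl⟩ : ∃ Sl : Finset (Pl K), ∀ w, w ∈ Sl ↔
      Above (Nat.card (SemidirectProduct.rightHom : SE V hcom r →* G ⧸ V).ker) w :=
    ⟨(above_fin hl0).toFinset, fun w => by rw [Set.Finite.mem_toFinset]; rfl⟩
  obtain ⟨Q, S₀, S', c, Y₀, hc, h3, h4, h5, h6, h7⟩ := h K hK (le_trans le_sup_left hle) (S₁ ∪ Sl)
  have hdis := Finset.disjoint_left.1 h5
  have hr0 : (0 : ℝ) < r := by exact_mod_cast lt_of_le_of_lt (Nat.zero_le _) hr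
  refine ⟨Q, S₀, S', c / r, Y₀, div_pos hc hr0, Finset.union_subset_left h3, h4,
    Finset.disjoint_left.2 fun v hv hv2 => hdis hv (Finset.mem_union_left _ hv2), h6,
    fun Y hY => bh_sup V M hcom hVM hcc hr (fun φb hs hf hd => ?_) (h7 Y hY)⟩
  obtain ⟨ψ, q2, q3, q4, q5, q6⟩ := h2 K hK (le_trans le_sup_right hle) φb hs hf Q S' h6
    (fun v hv h8 => hdis hv (Finset.mem_union_right _ ((hSl v).2 h8))) hd
  exact ⟨ψ, q2, q3, q4, q5, fun w hw => q6 w fun h9 =>
    hw (h3 (Finset.mem_union_right _ ((hSl w).2 h9)))⟩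

end H51.K2
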