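import Pool.Agent.H51.K2.Mc
import Pool.Agent.H71.KA.Fn3
import Pool.Agent.H71.KA.Sp3
import Pool.Agent.H36.FR.Fin
import Pool.Agent.H51.K2.Fib2
import Pool.Agent.H51.OW.Final
import Pool.Agent.H51.SN.Fin
import Pool.Agent.H35.UY.Apu
import Pool.Agent.H71.KA.Lf1

/-!
# [H51 K2 THM] the lower bound for the class `MC`
-/

set_option autoImplicit false

open scoped Classical

noncomputable section

namespace H51.K2

open H88.LH H88.LB H38.ML.Spec

/-- `BASE` for `Two` -/
theorem twob : TWOB := by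
  intro G _ _ C hp hcc N A _ h r hr g uni hI
  obtain ⟨m, hm, hNm⟩ := h.exponent
  refine H71.KA.base_of3 H51.SN.stpf (H71.KA.k2p Pool.Agent.H36.FR.fam2 fib2) C hp hcc N A h.compl h.comm hm hNm
    (fun x hx y hy => ?_) h.coprime h.type r hr g uni hI
  exact h.derived (Subgroup.commutator_mem_commutator (Subgroup.subset_closure hx) (Subgroup.subset_closure hy))

theorem lfu : LFU := fun _ _ _ _ _ π hπ hab s hs Z hZ hcop => H71.KA.lf1_step π hπ hab s hs Z hZ hcop

/-- THEOREM K2: the lower bound for the class `MC` -/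
theorem low_mc (n : ℕ) (hn : 2 ≤ n) (G : Subgroup (Equiv.Perm (Fin n)))
    (hG : MulAction.IsPretransitive G (Fin n)) (h : MC (Lst G)) : Low G := by
  refine low_of_base1 n hn G hG fun r hr g uni hI => ?_
  refine mc_base H51.OW.apm4x (fun _ hp => H35.UY.apu3u hp) H51.SN.stpf twob lfu h r hr g uni hI
    (fun x hx => H38.ML.prime_of_least G x hx.1 hx.2) (fun x hx j hj => ?_)
  have hpx := H38.ML.prime_of_least G x hx.1 hx.2
  have hxp : (x : Equiv.Perm (Fin n)) ^ orderOf x = 1 := congrArg Subtype.val (pow_orderOf_eq_one x)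
  obtain ⟨h1, h2⟩ := H88.LB.ind_pow hpx hxp (j := j)
    ((Nat.Prime.coprime_iff_not_dvd hpx).1 (Nat.coprime_comm.1 hj))
  refine ⟨fun h => ?_, h1.trans hx.2⟩
  exact h2 (fun h3 => hx.1 (Subtype.ext h3)) (congrArg Subtype.val h)

end H51.K2
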